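import Mathlib

set_option autoImplicit false

namespace Pool.Agent.Y276.HR

open Set Complex Filter Topology

/-- the real basis of `ℂⁿ` -/
noncomputable def bas (n : ℕ) (s : Fin n × Bool) : Fin n → ℂ :=
  Pi.single s.1 (if s.2 then I else 1)

/-- real coordinates -/
noncomputable def crd (n : ℕ) (s : Fin n × Bool) (h : Fin n → ℂ) : ℝ :=
  if s.2 then (h s.1).im else (h s.1).re

/-- complexified coordinates -/
noncomputable def lam (n : ℕ) (s : Fin n × Bool) :
    ((Fin n → ℂ) × (Fin n → ℂ)) →L[ℂ] ℂ :=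
  if s.2 then
    (2 * I)⁻¹ • ((ContinuousLinearMap.proj s.1).comp (ContinuousLinearMap.fst ℂ _ _) -
      (ContinuousLinearMap.proj s.1).comp (ContinuousLinearMap.snd ℂ _ _))
  else
    (2 : ℂ)⁻¹ • ((ContinuousLinearMap.proj s.1).comp (ContinuousLinearMap.fst ℂ _ _) +
      (ContinuousLinearMap.proj s.1).comp (ContinuousLinearMap.snd ℂ _ _))

theorem norm_bas_le (n : ℕ) (s : Fin n × Bool) : ‖bas n s‖ ≤ 1 := by
  unfold bas
  rw [Pi.norm_single]
  split_ifs <;> simp

theorem norm_lam_le (n : ℕ) (s : Fin n × Bool) : ‖lam n s‖ ≤ 1 := by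
  refine ContinuousLinearMap.opNorm_le_bound _ zero_le_one fun x => ?_
  have h1 : ‖x.1 s.1‖ ≤ ‖x‖ := (norm_le_pi_norm x.1 s.1).trans (norm_fst_le x)
  have h2 : ‖x.2 s.1‖ ≤ ‖x‖ := (norm_le_pi_norm x.2 s.1).trans (norm_snd_le x)
  unfold lam
  split_ifs
  · simp only [ContinuousLinearMap.smul_apply, ContinuousLinearMap.sub_apply,
      ContinuousLinearMap.comp_apply, ContinuousLinearMap.proj_apply, smul_eq_mul, norm_mul,
      norm_inv, Complex.norm_I, mul_one]
    have : ‖x.1 s.1 - x.2 s.1‖ ≤ ‖x‖ + ‖x‖ := (norm_sub_le _ _).trans (add_le_add h1 h2)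
    simp only [ContinuousLinearMap.coe_fst', ContinuousLinearMap.coe_snd', Complex.norm_ofNat]
    linarith
  · simp only [ContinuousLinearMap.smul_apply, ContinuousLinearMap.add_apply,
      ContinuousLinearMap.comp_apply, ContinuousLinearMap.proj_apply, smul_eq_mul, norm_mul,
      norm_inv]
    have : ‖x.1 s.1 + x.2 s.1‖ ≤ ‖x‖ + ‖x‖ := (norm_add_le _ _).trans (add_le_add h1 h2)
    simp only [ContinuousLinearMap.coe_fst', ContinuousLinearMap.coe_snd', Complex.norm_ofNat]
    linarith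

theorem lam_star (n : ℕ) (s : Fin n × Bool) (h : Fin n → ℂ) :
    lam n s (h, star h) = (crd n s h : ℂ) := by
  unfold lam crd
  split_ifs
  · simp only [ContinuousLinearMap.smul_apply, ContinuousLinearMap.sub_apply,
      ContinuousLinearMap.comp_apply, ContinuousLinearMap.proj_apply, smul_eq_mul,
      ContinuousLinearMap.coe_fst', ContinuousLinearMap.coe_snd', Pi.star_apply]
    have := Complex.sub_conj (h s.1)
    rw [← starRingEnd_apply, this]
    field_simp
    push_cast
    ring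
  · simp only [ContinuousLinearMap.smul_apply, ContinuousLinearMap.add_apply,
      ContinuousLinearMap.comp_apply, ContinuousLinearMap.proj_apply, smul_eq_mul,
      ContinuousLinearMap.coe_fst', ContinuousLinearMap.coe_snd', Pi.star_apply]
    have := Complex.add_conj (h s.1)
    rw [← starRingEnd_apply, this]
    push_cast
    ring

theorem decomp (n : ℕ) (h : Fin n → ℂ) : ∑ s : Fin n × Bool, crd n s h • bas n s = h := by
  rw [Fintype.sum_prod_type]
  simp only [Fintype.sum_bool, crd, bas, if_true, Bool.false_eq_true, if_false]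
  funext j
  rw [Finset.sum_apply]
  simp only [Pi.add_apply, Pi.smul_apply, Pi.single_apply]
  rw [Finset.sum_eq_single j]
  · simp only [if_true]
    rw [Complex.real_smul, Complex.real_smul, mul_one, add_comm]
    exact Complex.re_add_im (h j)
  · intro b _ hb
    simp [Ne.symm hb]
  · intro hj; exact absurd (Finset.mem_univ j) hj

/-- the complexified series -/
noncomputable def cser {n : ℕ} (q : FormalMultilinearSeries ℝ (Fin n → ℂ) ℂ) :
    FormalMultilinearSeries ℂ ((Fin n → ℂ) × (Fin n → ℂ)) ℂ := fun k =>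
  ∑ s : Fin k → Fin n × Bool, q k (fun l => bas n (s l)) •
    (ContinuousMultilinearMap.mkPiAlgebra ℂ (Fin k) ℂ).compContinuousLinearMap
      (fun l => lam n (s l))

theorem cser_apply {n : ℕ} (q : FormalMultilinearSeries ℝ (Fin n → ℂ) ℂ) (k : ℕ)
    (h : Fin n → ℂ) : cser q k (fun _ => (h, star h)) = q k (fun _ => h) := by
  unfold cser
  rw [ContinuousMultilinearMap.sum_apply]
  have h2 : q k (fun _ => h) = q k (fun _ : Fin k => ∑ s : Fin n × Bool, crd n s h • bas n s) := by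
    rw [decomp]
  rw [h2, ContinuousMultilinearMap.map_sum]
  refine Finset.sum_congr rfl fun s _ => ?_
  rw [ContinuousMultilinearMap.smul_apply, ContinuousMultilinearMap.compContinuousLinearMap_apply,
    ContinuousMultilinearMap.mkPiAlgebra_apply, ContinuousMultilinearMap.map_smul_univ]
  simp only [lam_star]
  rw [smul_eq_mul, Complex.real_smul]
  push_cast
  ring

theorem norm_cser_le {n : ℕ} (q : FormalMultilinearSeries ℝ (Fin n → ℂ) ℂ) (k : ℕ) :
    ‖cser q k‖ ≤ (2 * n : ℝ) ^ k * ‖q k‖ := by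
  unfold cser
  refine (norm_sum_le _ _).trans ?_
  have h1 : ∀ s : Fin k → Fin n × Bool, ‖q k (fun l => bas n (s l)) •
    (ContinuousMultilinearMap.mkPiAlgebra ℂ (Fin k) ℂ).compContinuousLinearMap
      (fun l => lam n (s l))‖ ≤ ‖q k‖ := by
    intro s
    rw [norm_smul]
    have h2 : ‖q k (fun l => bas n (s l))‖ ≤ ‖q k‖ := by
      refine ((q k).le_opNorm _).trans ?_
      have : ∏ l, ‖bas n (s l)‖ ≤ 1 :=
        Finset.prod_le_one (fun _ _ => norm_nonneg _) fun l _ => norm_bas_le n (s l)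
      nlinarith [norm_nonneg (q k)]
    have h3 : ‖(ContinuousMultilinearMap.mkPiAlgebra ℂ (Fin k) ℂ).compContinuousLinearMap
      (fun l => lam n (s l))‖ ≤ 1 := by
      refine (ContinuousMultilinearMap.norm_compContinuousLinearMap_le _ _).trans ?_
      have h4 : ‖ContinuousMultilinearMap.mkPiAlgebra ℂ (Fin k) ℂ‖ ≤ 1 :=
        (ContinuousMultilinearMap.norm_mkPiAlgebra).le
      have h5 : ∏ l, ‖lam n (s l)‖ ≤ 1 :=
        Finset.prod_le_one (fun _ _ => norm_nonneg _) fun l _ => norm_lam_le n (s l)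
      have h6 : 0 ≤ ∏ l, ‖lam n (s l)‖ := Finset.prod_nonneg fun _ _ => norm_nonneg _
      nlinarith [norm_nonneg (ContinuousMultilinearMap.mkPiAlgebra ℂ (Fin k) ℂ)]
    have := mul_le_mul h2 h3 (norm_nonneg _) (norm_nonneg _)
    simpa using this
  refine (Finset.sum_le_sum fun s _ => h1 s).trans ?_
  rw [Finset.sum_const, nsmul_eq_mul]
  simp only [Finset.card_univ, Fintype.card_fun, Fintype.card_prod, Fintype.card_fin,
    Fintype.card_bool]
  push_cast
  rw [mul_comm (n : ℝ) 2]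

/-- Local complexification of a real analytic function on `ℂⁿ`. -/
theorem exists_cplx {n : ℕ} (p : (Fin n → ℂ) → ℝ) (z₀ : Fin n → ℂ) (hp : AnalyticAt ℝ p z₀) :
    ∃ r > 0, ∃ P : (Fin n → ℂ) × (Fin n → ℂ) → ℂ,
      (∀ x ∈ Metric.ball (z₀, star z₀) r, DifferentiableAt ℂ P x) ∧
      ∀ z ∈ Metric.ball z₀ r, P (z, star z) = (p z : ℂ) := by
  have hf : AnalyticAt ℝ (fun z => (p z : ℂ)) z₀ :=
    (Complex.ofRealCLM.analyticAt (p z₀)).comp hp
  obtain ⟨q, hq⟩ := hf
  obtain ⟨ρ, hρ⟩ := hq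
  have hpos : 0 < q.radius := lt_of_lt_of_le hρ.r_pos hρ.r_le
  obtain ⟨C, r, hC, hr, hb⟩ := q.le_mul_pow_of_radius_pos hpos
  let Q := cser q
  have hQb : ∀ k, ‖Q k‖ ≤ C * ((2 * n : ℝ) * r) ^ k := by
    intro k
    refine (norm_cser_le q k).trans ?_
    calc (2 * n : ℝ) ^ k * ‖q k‖ ≤ (2 * n : ℝ) ^ k * (C * r ^ k) := by
          gcongr; exact hb k
      _ = C * ((2 * n : ℝ) * r) ^ k := by rw [mul_pow]; ring
  let t : NNReal := ⟨((2 * n : ℝ) * r + 1)⁻¹, by positivity⟩
  have ht : (t : ℝ) = ((2 * n : ℝ) * r + 1)⁻¹ := rfl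
  have htpos : 0 < t := by
    have : (0 : ℝ) < t := by rw [ht]; positivity
    exact_mod_cast this
  have hQr : (t : ENNReal) ≤ Q.radius := by
    refine Q.le_radius_of_bound C fun k => ?_
    calc ‖Q k‖ * (t : ℝ) ^ k ≤ (C * ((2 * n : ℝ) * r) ^ k) * (t : ℝ) ^ k := by
          gcongr; exact hQb k
      _ = C * (((2 * n : ℝ) * r) * t) ^ k := by rw [mul_assoc, ← mul_pow]
      _ ≤ C * 1 ^ k := by
          gcongr
          rw [ht, mul_inv_le_iff₀ (by positivity)]
          linarith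
      _ = C := by simp
  have hQpos : 0 < Q.radius := lt_of_lt_of_le (by exact_mod_cast htpos) hQr
  have hQs := Q.hasFPowerSeriesOnBall hQpos
  obtain ⟨ρ', hρ'0, hρ'⟩ : ∃ ρ' : ℝ, 0 < ρ' ∧ ENNReal.ofReal ρ' ≤ ρ := by
    rcases eq_or_ne ρ ⊤ with h | h
    · exact ⟨1, one_pos, by rw [h]; exact le_top⟩
    · exact ⟨ρ.toReal, ENNReal.toReal_pos hρ.r_pos.ne' h, by rw [ENNReal.ofReal_toReal h]⟩
  refine ⟨min ρ' t, lt_min hρ'0 (by exact_mod_cast htpos),
    fun x => Q.sum (x - (z₀, star z₀)), ?_, ?_⟩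
  · intro x hx
    have hx' : x - (z₀, star z₀) ∈ Metric.eball (0 : (Fin n → ℂ) × (Fin n → ℂ)) Q.radius := by
      rw [Metric.mem_eball, edist_zero_right]
      refine lt_of_lt_of_le ?_ hQr
      rw [Metric.mem_ball, dist_eq_norm] at hx
      have h1 : ‖x - (z₀, star z₀)‖ < t := lt_of_lt_of_le hx (min_le_right _ _)
      rw [← ofReal_norm, ← ENNReal.ofReal_coe_nnreal]
      exact (ENNReal.ofReal_lt_ofReal_iff (by exact_mod_cast htpos)).2 h1
    have h2 : AnalyticAt ℂ Q.sum (x - (z₀, star z₀)) := hQs.analyticAt_of_mem hx'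
    exact h2.differentiableAt.comp x ((differentiableAt_id).sub_const _)
  · intro z hz
    rw [Metric.mem_ball, dist_eq_norm] at hz
    have h1 : (z, star z) - (z₀, star z₀) = (z - z₀, star (z - z₀)) := by
      rw [star_sub]; rfl
    have h2 : HasSum (fun k => q k (fun _ => z - z₀)) ((p (z₀ + (z - z₀)) : ℂ)) := by
      refine hρ.hasSum ?_
      rw [Metric.mem_eball, edist_zero_right]
      refine lt_of_lt_of_le ?_ hρ'
      rw [← ofReal_norm]
      exact (ENNReal.ofReal_lt_ofReal_iff hρ'0).2 (lt_of_lt_of_le hz (min_le_left _ _))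
    show Q.sum ((z, star z) - (z₀, star z₀)) = _
    rw [h1]
    unfold FormalMultilinearSeries.sum
    have h3 : ∀ k, Q k (fun _ => (z - z₀, star (z - z₀))) = q k (fun _ => z - z₀) :=
      fun k => cser_apply q k _
    simp only [h3]
    rw [h2.tsum_eq]
    congr 2
    abel

end Pool.Agent.Y276.HR
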