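import Mathlib

set_option autoImplicit false

namespace Pool.Agent.Y276.HR

open Set Complex Filter Topology

/-- Identity theorem on convex open sets for several complex variables, by restriction to lines. -/
theorem eqOn_of_convex {V : Type*} [NormedAddCommGroup V] [NormedSpace ℂ V]
    {U : Set V} (hUo : IsOpen U) (hUc : Convex ℝ U) {f : V → ℂ} (hf : DifferentiableOn ℂ f U)
    {q : V} (hq : q ∈ U) (h0 : ∀ᶠ z in 𝓝 q, f z = 0) : ∀ z ∈ U, f z = 0 := by
  intro z hz
  let ℓ : ℂ → V := fun s => q + s • (z - q)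
  have hℓc : Continuous ℓ := by fun_prop
  have hℓd : Differentiable ℂ ℓ := by
    intro s
    simp only [ℓ]
    fun_prop
  let S : Set ℂ := ℓ ⁻¹' U
  have hSo : IsOpen S := hUo.preimage hℓc
  have hSc : Convex ℝ S := by
    intro a ha b hb t u ht hu htu
    show ℓ (t • a + u • b) ∈ U
    have : ℓ (t • a + u • b) = t • ℓ a + u • ℓ b := by
      simp only [ℓ, smul_add, add_smul]
      generalize z - q = v
      have h1 : q = t • q + u • q := by rw [← add_smul, htu, one_smul]
      rw [smul_assoc, smul_assoc]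
      conv_lhs => rw [h1]
      abel
    rw [this]
    exact hUc ha hb ht hu htu
  have hG : DifferentiableOn ℂ (fun s => f (ℓ s)) S := by
    intro s hs
    exact ((hf (ℓ s) hs).differentiableAt (hUo.mem_nhds hs)).comp s (hℓd s)
      |>.differentiableWithinAt
  have hGa : AnalyticOnNhd ℂ (fun s => f (ℓ s)) S := hG.analyticOnNhd hSo
  have h0S : (0 : ℂ) ∈ S := by simp [S, ℓ, hq]
  have h1S : (1 : ℂ) ∈ S := by simp [S, ℓ, hz]
  have hev : (fun s => f (ℓ s)) =ᶠ[𝓝 0] 0 := by
    have : Tendsto ℓ (𝓝 0) (𝓝 q) := by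
      have := hℓc.tendsto 0
      simpa [ℓ] using this
    exact this.eventually h0
  have := hGa.eqOn_zero_of_preconnected_of_eventuallyEq_zero hSc.isPreconnected h0S hev h1S
  simpa [ℓ] using this

/-- Totally real identity principle. -/
theorem trip {V : Type*} [NormedAddCommGroup V] [NormedSpace ℂ V] [StarAddMonoid V]
    [StarModule ℂ V] [ContinuousStar V]
    {Ω : Set V} (hΩo : IsOpen Ω) (hΩc : Convex ℝ Ω) {F : V × V → ℂ}
    (hF : ∀ z w, z ∈ Ω → star w ∈ Ω → DifferentiableAt ℂ F (z, w))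
    (h0 : ∀ z ∈ Ω, F (z, star z) = 0) :
    ∀ z w, z ∈ Ω → star w ∈ Ω → F (z, w) = 0 := by
  intro z w hz hw
  let α : V := (2⁻¹ : ℂ) • (z + star w)
  let β : V := ((2 * I)⁻¹ : ℂ) • (z - star w)
  let ζ : ℂ → V := fun s => α + s • β
  let ω : ℂ → V := fun s => star α + s • star β
  have hζc : Continuous ζ := by fun_prop
  have hωc : Continuous ω := by fun_prop
  have hζd : Differentiable ℂ ζ := by
    intro s; simp only [ζ]; fun_prop
  have hωd : Differentiable ℂ ω := by
    intro s; simp only [ω]; fun_prop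
  have hωζ : ∀ s, star (ω s) = ζ (star s) := by
    intro s; simp [ω, ζ, star_add, star_smul]
  let S : Set ℂ := {s | ζ s ∈ Ω ∧ ζ (star s) ∈ Ω}
  have hSo : IsOpen S :=
    (hΩo.preimage hζc).inter (hΩo.preimage (hζc.comp continuous_star))
  have haff : ∀ (a b : ℂ) (t u : ℝ), t + u = 1 → ζ (t • a + u • b) = t • ζ a + u • ζ b := by
    intro a b t u htu
    simp only [ζ, smul_add, add_smul]
    have h1 : α = t • α + u • α := by rw [← add_smul, htu, one_smul]
    rw [smul_assoc, smul_assoc]
    conv_lhs => rw [h1]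
    abel
  have hSc : Convex ℝ S := by
    intro a ha b hb t u ht hu htu
    refine ⟨?_, ?_⟩
    · show ζ (t • a + u • b) ∈ Ω
      rw [haff a b t u htu]
      exact hΩc ha.1 hb.1 ht hu htu
    · show ζ (star (t • a + u • b)) ∈ Ω
      have : star (t • a + u • b) = t • star a + u • star b := by
        simp [star_add]
      rw [this, haff _ _ t u htu]
      exact hΩc ha.2 hb.2 ht hu htu
  have hζI : ζ I = z := by
    simp only [ζ, α, β, smul_smul]
    have : I * (2 * I)⁻¹ = (2⁻¹ : ℂ) := by
      field_simp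
    rw [this, ← smul_add]
    have : z + star w + (z - star w) = (2 : ℂ) • z := by
      rw [two_smul]; abel
    rw [this, smul_smul]; norm_num
  have hζI' : ζ (star I) = star w := by
    simp only [ζ, α, β, smul_smul]
    have : star I * (2 * I)⁻¹ = (-2⁻¹ : ℂ) := by
      have : star I = -I := by simp
      rw [this]; field_simp
    rw [this, neg_smul, ← sub_eq_add_neg, ← smul_sub]
    have : z + star w - (z - star w) = (2 : ℂ) • star w := by
      rw [two_smul]; abel
    rw [this, smul_smul]; norm_num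
  have hωI : ω I = w := by
    have := hωζ I
    rw [hζI'] at this
    exact star_injective this
  have hIS : I ∈ S := ⟨by rw [hζI]; exact hz, by rw [hζI']; exact hw⟩
  have h0S : (0 : ℂ) ∈ S := by
    have h1 : star I ∈ S := by
      refine ⟨by rw [hζI']; exact hw, ?_⟩
      rw [star_star, hζI]; exact hz
    have h2 := hSc hIS h1 (a := (1/2 : ℝ)) (b := (1/2 : ℝ)) (by norm_num) (by norm_num) (by norm_num)
    have h3 : ((1/2 : ℝ) • I + (1/2 : ℝ) • star I : ℂ) = 0 := by simp
    rwa [h3] at h2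
  have hG : DifferentiableOn ℂ (fun s => F (ζ s, ω s)) S := by
    intro s hs
    have h1 : star (ω s) ∈ Ω := by rw [hωζ]; exact hs.2
    exact ((hF (ζ s) (ω s) hs.1 h1).comp s ((hζd s).prodMk (hωd s))).differentiableWithinAt
  have hGa : AnalyticOnNhd ℂ (fun s => F (ζ s, ω s)) S := hG.analyticOnNhd hSo
  have hreal : ∀ t : ℝ, (t : ℂ) ∈ S → F (ζ t, ω t) = 0 := by
    intro t ht
    have h1 : ω t = star (ζ t) := by
      have := hωζ (t : ℂ)
      have h2 : star (t : ℂ) = (t : ℂ) := by simp
      rw [h2] at this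
      rw [← this, star_star]
    rw [h1]
    exact h0 _ ht.1
  have hfreq : ∃ᶠ s in 𝓝[≠] (0 : ℂ), F (ζ s, ω s) = 0 := by
    have hcont : Tendsto (fun t : ℝ => (t : ℂ)) (𝓝[≠] 0) (𝓝[≠] 0) := by
      rw [tendsto_nhdsWithin_iff]
      refine ⟨?_, ?_⟩
      · have : Tendsto (fun t : ℝ => (t : ℂ)) (𝓝 0) (𝓝 ((0 : ℝ) : ℂ)) :=
          Complex.continuous_ofReal.tendsto 0
        simpa using this.mono_left nhdsWithin_le_nhds
      · filter_upwards [self_mem_nhdsWithin] with t ht
        simpa using ht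
    refine hcont.frequently ?_
    have hmem : ∀ᶠ t : ℝ in 𝓝[≠] 0, (t : ℂ) ∈ S := by
      have : Tendsto (fun t : ℝ => (t : ℂ)) (𝓝[≠] 0) (𝓝 0) :=
        hcont.mono_right nhdsWithin_le_nhds
      exact this.eventually (hSo.mem_nhds h0S)
    exact (hmem.mono fun t ht => hreal t ht).frequently
  have := hGa.eqOn_zero_of_preconnected_of_frequently_eq_zero hSc.isPreconnected h0S hfreq hIS
  simpa [hζI, hωI] using this

end Pool.Agent.Y276.HR
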