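import Mathlib

set_option autoImplicit false

namespace Pool.Agent.Y276.HR

open Set Filter Topology

/-- restriction of functions to a subset -/
def rs {X : Type} (S : Set X) : (X → ℂ) →ₗ[ℂ] (S → ℂ) := LinearMap.funLeft ℂ ℂ Subtype.val

@[simp] theorem rs_apply {X : Type} (S : Set X) (f : X → ℂ) (x : S) : rs S f x = f x := rfl

/-- the rank of a space of functions on a subset -/
noncomputable def rk {X : Type} (W : Submodule ℂ (X → ℂ)) (S : Set X) : Cardinal :=
  Module.rank ℂ (W.map (rs S))

theorem rk_add {X : Type} (W : Submodule ℂ (X → ℂ)) {S U : Set X} (h : S ⊆ U) :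
    rk W U ≤ rk W S + rk (W ⊓ LinearMap.ker (rs S)) U := by
  let A := W.map (rs U)
  let ρ : (U → ℂ) →ₗ[ℂ] (S → ℂ) := LinearMap.funLeft ℂ ℂ (Set.inclusion h)
  have hρ : ∀ f : X → ℂ, ρ (rs U f) = rs S f := fun f => rfl
  let g : A →ₗ[ℂ] (S → ℂ) := ρ.domRestrict A
  have h1 := LinearMap.rank_range_add_rank_ker g
  have h2 : LinearMap.range g ≤ W.map (rs S) := by
    rintro _ ⟨⟨a, f, hf, rfl⟩, rfl⟩
    exact ⟨f, hf, rfl⟩
  have h3 : (LinearMap.ker g).map A.subtype ≤ (W ⊓ LinearMap.ker (rs S)).map (rs U) := by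
    rintro _ ⟨⟨a, f, hf, rfl⟩, ha, rfl⟩
    refine ⟨f, ⟨hf, ?_⟩, rfl⟩
    exact ha
  have h4 : Module.rank ℂ (LinearMap.ker g) = Module.rank ℂ ((LinearMap.ker g).map A.subtype) :=
    LinearEquiv.rank_eq (Submodule.equivMapOfInjective A.subtype A.injective_subtype _)
  show Module.rank ℂ A ≤ _
  rw [← h1, h4]
  exact add_le_add (Submodule.rank_mono h2) (Submodule.rank_mono h3)

theorem rk_lt {X : Type} {W W1 : Submodule ℂ (X → ℂ)} (hle : W1 ≤ W) {S : Set X} {q : X}
    (hq : q ∈ S) {f0 : X → ℂ} (hf0 : f0 ∈ W) (hne : f0 q ≠ 0) (hz : ∀ f ∈ W1, f q = 0) {k : ℕ}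
    (hk : rk W S ≤ ((k + 1 : ℕ) : Cardinal)) : rk W1 S ≤ (k : Cardinal) := by
  have hfin : Module.Finite ℂ (W.map (rs S)) := by
    rw [← Module.rank_lt_aleph0_iff]
    exact lt_of_le_of_lt hk (Cardinal.natCast_lt_aleph0)
  have hlt : W1.map (rs S) < W.map (rs S) := by
    refine lt_of_le_of_ne (Submodule.map_mono hle) fun he => ?_
    have h1 : rs S f0 ∈ W1.map (rs S) := he ▸ Submodule.mem_map_of_mem hf0
    obtain ⟨f, hf, hff⟩ := h1
    have := congrFun hff ⟨q, hq⟩
    simp only [rs_apply] at this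
    exact hne (this ▸ hz f hf)
  have hfl := Submodule.finrank_lt_finrank_of_lt hlt
  have hfin1 : Module.Finite ℂ (W1.map (rs S)) :=
    Submodule.finiteDimensional_of_le hlt.le
  unfold rk at hk ⊢
  rw [← Module.finrank_eq_rank] at hk ⊢
  have hk' : Module.finrank ℂ (W.map (rs S)) ≤ k + 1 := by exact_mod_cast hk
  have : Module.finrank ℂ (W1.map (rs S)) ≤ k := by omega
  exact_mod_cast this

/-- linearly independent functions have a nonvanishing minor -/
theorem exists_det_ne_zero {S : Type} {m : ℕ} (a : Fin m → S → ℂ) (ha : LinearIndependent ℂ a) :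
    ∃ x : Fin m → S, (Matrix.of fun i j => a j (x i)).det ≠ 0 := by
  classical
  let v : S → (Fin m → ℂ) := fun x j => a j x
  have hspan : Submodule.span ℂ (range v) = ⊤ := by
    by_contra hne
    obtain ⟨f, hf, hle⟩ := Submodule.exists_le_ker_of_lt_top _ (lt_top_iff_ne_top.2 hne)
    refine hf ?_
    have h1 : ∀ x, ∑ j, f (Pi.single j 1) * a j x = 0 := by
      intro x
      have h2 : f (v x) = 0 := hle (Submodule.subset_span ⟨x, rfl⟩)
      have h3 : v x = ∑ j, (a j x) • (Pi.single j 1 : Fin m → ℂ) := by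
        rw [← Finset.univ_sum_single (v x)]
        refine Finset.sum_congr rfl fun j _ => ?_
        rw [← Pi.single_smul, smul_eq_mul, mul_one]
      rw [h3, map_sum] at h2
      simp only [map_smul, smul_eq_mul] at h2
      rw [← h2]
      exact Finset.sum_congr rfl fun j _ => mul_comm _ _
    have h4 := Fintype.linearIndependent_iff.1 ha (fun j => f (Pi.single j 1)) (by
      funext x
      rw [Finset.sum_apply]
      simpa using h1 x)
    refine LinearMap.pi_ext' fun j => ?_
    ext
    simpa using h4 j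
  obtain ⟨b, hb, hbs, hbl⟩ := exists_linearIndependent ℂ (range v)
  rw [hspan] at hbs
  let B : Module.Basis b ℂ (Fin m → ℂ) := Module.Basis.mk hbl (by simp [hbs])
  have : Fintype b := FiniteDimensional.fintypeBasisIndex B
  have hcard : Fintype.card b = m := by
    rw [← Module.finrank_eq_card_basis B, Module.finrank_fin_fun]
  let e : Fin m ≃ b := (Fintype.equivFinOfCardEq hcard).symm
  choose x hx using fun i : Fin m => hb (e i).2
  refine ⟨x, ?_⟩
  have hli : LinearIndependent ℂ (fun i => v (x i)) := by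
    have h1 : (fun i => v (x i)) = (fun i : Fin m => ((e i : b) : Fin m → ℂ)) := by
      funext i; exact hx i
    rw [h1]
    exact hbl.comp e e.injective
  have hu := Matrix.linearIndependent_rows_iff_isUnit.1
    (show LinearIndependent ℂ (Matrix.of fun i j => a j (x i)).row from hli)
  exact ((Matrix.isUnit_iff_isUnit_det _).1 hu).ne_zero

/-- the span of the columns of a kernel -/
def col {X Y : Type} (K : X → Y → ℂ) (T : Set Y) : Submodule ℂ (X → ℂ) :=
  Submodule.span ℂ ((fun y x => K x y) '' T)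

theorem map_col {X Y : Type} (K : X → Y → ℂ) (T : Set Y) (S : Set X) :
    (col K T).map (rs S) = Submodule.span ℂ ((fun y => rs S (fun x => K x y)) '' T) := by
  unfold col
  rw [Submodule.map_span, ← image_comp]
  rfl

/-- choice of a basis among the columns, with interpolation points -/
theorem exists_basis {X Y : Type} (K : X → Y → ℂ) (T : Set Y) (S : Set X) {N : ℕ}
    (h : rk (col K T) S ≤ (N : Cardinal)) :
    ∃ m ≤ N, ∃ (y : Fin m → Y) (x : Fin m → X), (∀ j, y j ∈ T) ∧ (∀ i, x i ∈ S) ∧
      (Matrix.of fun i j => K (x i) (y j)).det ≠ 0 ∧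
      ∀ y' ∈ T, ∃ γ : Fin m → ℂ, ∀ x' ∈ S, K x' y' = ∑ j, γ j * K x' (y j) := by
  classical
  obtain ⟨b, hb, hbs, hbl⟩ :=
    exists_linearIndependent ℂ ((fun y => rs S (fun x => K x y)) '' T)
  have hrank : Module.rank ℂ (Submodule.span ℂ b) = Cardinal.mk b := rank_span_set hbl
  unfold rk at h
  rw [map_col, ← hbs, hrank] at h
  have hfin : b.Finite := Cardinal.lt_aleph0_iff_set_finite.1
    (lt_of_le_of_lt h Cardinal.natCast_lt_aleph0)
  have : Fintype b := hfin.fintype
  have hcard : Fintype.card b ≤ N := by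
    rw [Cardinal.mk_fintype] at h
    exact_mod_cast h
  let e : Fin (Fintype.card b) ≃ b := (Fintype.equivFin b).symm
  choose y hyT hy using fun j : Fin (Fintype.card b) => hb (e j).2
  have hli : LinearIndependent ℂ (fun j => rs S (fun x => K x (y j))) := by
    have h1 : (fun j => rs S (fun x => K x (y j))) = fun j : Fin (Fintype.card b) =>
        ((e j : b) : S → ℂ) := by
      funext j; exact hy j
    rw [h1]
    exact hbl.comp e e.injective
  obtain ⟨x, hx⟩ := exists_det_ne_zero _ hli
  refine ⟨_, hcard, y, fun i => (x i : X), hyT, fun i => (x i).2, ?_, ?_⟩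
  · simpa using hx
  · intro y' hy'
    have h1 : rs S (fun x => K x y') ∈ Submodule.span ℂ b := by
      rw [hbs]; exact Submodule.subset_span ⟨y', hy', rfl⟩
    have h2 : Submodule.span ℂ b = Submodule.span ℂ (range fun j => rs S (fun x => K x (y j))) := by
      congr 1
      ext g
      constructor
      · intro hg
        refine ⟨e.symm ⟨g, hg⟩, ?_⟩
        have := hy (e.symm ⟨g, hg⟩)
        simpa using this
      · rintro ⟨j, rfl⟩
        have := hy j
        simp only at this
        show rs S (fun x => K x (y j)) ∈ b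
        rw [this]
        exact (e j).2
    rw [h2, Submodule.mem_span_range_iff_exists_fun] at h1
    obtain ⟨γ, hγ⟩ := h1
    refine ⟨γ, fun x' hx' => ?_⟩
    have := congrFun hγ ⟨x', hx'⟩
    simp only [Finset.sum_apply, Pi.smul_apply, rs_apply, smul_eq_mul] at this
    exact this.symm

/-- coefficients through the inverse of the minor -/
theorem coeff_eq {X Y : Type} (K : X → Y → ℂ) {m : ℕ} (y : Fin m → Y) (x : Fin m → X)
    (hdet : (Matrix.of fun i j => K (x i) (y j)).det ≠ 0) (y' : Y) (γ : Fin m → ℂ)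
    (hγ : ∀ i, K (x i) y' = ∑ j, γ j * K (x i) (y j)) (j : Fin m) :
    γ j = ∑ i, (Matrix.of fun i j => K (x i) (y j))⁻¹ j i * K (x i) y' := by
  set M := Matrix.of fun i j => K (x i) (y j) with hM
  have h1 : M.mulVec γ = fun i => K (x i) y' := by
    funext i
    rw [hγ i]
    simp only [Matrix.mulVec, dotProduct, hM, Matrix.of_apply]
    exact Finset.sum_congr rfl fun j _ => mul_comm _ _
  have h2 : γ = M⁻¹.mulVec (fun i => K (x i) y') := by
    rw [← h1, Matrix.mulVec_mulVec, Matrix.nonsing_inv_mul _ (Ne.isUnit hdet), Matrix.one_mulVec]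
  conv_lhs => rw [h2]
  rfl

/-- all minors of size `k+1` vanish if the rank is at most `k` -/
theorem minor_zero_of_rk {X Y : Type} (K : X → Y → ℂ) (T : Set Y) (S : Set X) {k : ℕ}
    (h : rk (col K T) S ≤ (k : Cardinal)) (x : Fin (k + 1) → X) (y : Fin (k + 1) → Y)
    (hx : ∀ i, x i ∈ S) (hy : ∀ j, y j ∈ T) :
    (Matrix.of fun i j => K (x i) (y j)).det = 0 := by
  classical
  have hfin : Module.Finite ℂ ((col K T).map (rs S)) := by
    rw [← Module.rank_lt_aleph0_iff]
    exact lt_of_le_of_lt h Cardinal.natCast_lt_aleph0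
  have hfr : Module.finrank ℂ ((col K T).map (rs S)) ≤ k := by
    unfold rk at h
    rw [← Module.finrank_eq_rank] at h
    exact_mod_cast h
  let u : Fin (k + 1) → (col K T).map (rs S) := fun j =>
    ⟨rs S (fun x => K x (y j)), Submodule.mem_map_of_mem (Submodule.subset_span ⟨y j, hy j, rfl⟩)⟩
  have hdep : ¬ LinearIndependent ℂ u := by
    intro hl
    have := hl.fintype_card_le_finrank
    simp at this
    omega
  rw [Fintype.not_linearIndependent_iff] at hdep
  obtain ⟨c, hc, j0, hj0⟩ := hdep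
  rw [← Matrix.exists_mulVec_eq_zero_iff]
  refine ⟨c, fun h0 => hj0 (congrFun h0 j0), ?_⟩
  funext i
  have h1 := congrArg (fun t : (col K T).map (rs S) => (t : S → ℂ) ⟨x i, hx i⟩) hc
  simp only [AddSubmonoidClass.coe_finset_sum, Finset.sum_apply, SetLike.val_smul, Pi.smul_apply,
    smul_eq_mul, ZeroMemClass.coe_zero, Pi.zero_apply, u, rs_apply] at h1
  simp only [Matrix.mulVec, dotProduct, Matrix.of_apply, Pi.zero_apply]
  rw [← h1]
  exact Finset.sum_congr rfl fun j _ => mul_comm _ _

/-- the rank is at most `k` if all minors of size `k+1` vanish -/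
theorem rk_of_minor_zero {X Y : Type} (K : X → Y → ℂ) (T : Set Y) (S : Set X) {k : ℕ}
    (h : ∀ (x : Fin (k + 1) → X) (y : Fin (k + 1) → Y), (∀ i, x i ∈ S) → (∀ j, y j ∈ T) →
      (Matrix.of fun i j => K (x i) (y j)).det = 0) :
    rk (col K T) S ≤ (k : Cardinal) := by
  classical
  by_contra hk
  push Not at hk
  obtain ⟨b, hb, hbs, hbl⟩ :=
    exists_linearIndependent ℂ ((fun y => rs S (fun x => K x y)) '' T)
  have hrank : Module.rank ℂ (Submodule.span ℂ b) = Cardinal.mk b := rank_span_set hbl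
  unfold rk at hk
  rw [map_col, ← hbs, hrank] at hk
  have hk1 : ((k + 1 : ℕ) : Cardinal) ≤ Cardinal.mk b := by
    rw [show k + 1 = Nat.succ k from rfl, Cardinal.nat_succ]
    exact Order.succ_le_of_lt hk
  have hk2 : Cardinal.lift.{0} (Cardinal.mk (Fin (k + 1))) ≤ Cardinal.lift.{0} (Cardinal.mk b) := by
    simpa using hk1
  obtain ⟨e⟩ := Cardinal.lift_mk_le'.1 hk2
  choose y hyT hy using fun j : Fin (k + 1) => hb (e j).2
  have hli : LinearIndependent ℂ (fun j => rs S (fun x => K x (y j))) := by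
    have h1 : (fun j => rs S (fun x => K x (y j))) = fun j : Fin (k + 1) =>
        ((e j : b) : S → ℂ) := by
      funext j; exact hy j
    rw [h1]
    exact hbl.comp e e.injective
  obtain ⟨x, hx⟩ := exists_det_ne_zero _ hli
  exact hx (h (fun i => x i) y (fun i => (x i).2) hyT)

/-- row rank equals column rank -/
theorem rk_transpose {X Y : Type} (K : X → Y → ℂ) (T : Set Y) (S : Set X) {k : ℕ}
    (h : rk (col K T) S ≤ (k : Cardinal)) :
    rk (col (fun y x => K x y) S) T ≤ (k : Cardinal) := by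
  refine rk_of_minor_zero _ _ _ fun y x hy hx => ?_
  have := minor_zero_of_rk K T S h x y hx hy
  rw [← Matrix.det_transpose] at this
  exact this

end Pool.Agent.Y276.HR
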