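import Mathlib
import Pool.Agent.Y276.HRIdent
import Pool.Agent.Y276.HRRank

set_option autoImplicit false

namespace Pool.Agent.Y276.HR

open Set Filter Topology

/-- triangular numbers -/
def tri : ℕ → ℕ
  | 0 => 0
  | k + 1 => (k + 1) + tri k

/-- the hyperplane `z₀ = c + λ z₁` -/
def hyp {m : ℕ} (cl : ℂ × ℂ) : Set (Fin (m + 2) → ℂ) := {z | z 0 = cl.1 + cl.2 * z 1}

theorem rk_zero {X : Type} {W : Submodule ℂ (X → ℂ)} {U : Set X} (h : ∀ f ∈ W, ∀ z ∈ U, f z = 0) :
    rk W U = 0 := by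
  have : W.map (rs U) = ⊥ := by
    rw [eq_bot_iff]
    rintro _ ⟨f, hf, rfl⟩
    rw [Submodule.mem_bot]
    funext x
    exact h f hf x x.2
  unfold rk
  rw [this]
  simp

theorem all_zero {m : ℕ} {U : Set (Fin (m + 2) → ℂ)} (hUo : IsOpen U) (hUc : Convex ℝ U)
    {f : (Fin (m + 2) → ℂ) → ℂ} (hf : DifferentiableOn ℂ f U) {B : Set (ℂ × ℂ)} (hB : IsOpen B)
    (hne : ∃ cl ∈ B, ∃ z ∈ U, z ∈ hyp (m := m) cl)
    (h0 : ∀ cl ∈ B, ∀ z ∈ hyp (m := m) cl ∩ U, f z = 0) : ∀ z ∈ U, f z = 0 := by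
  obtain ⟨cl, hcl, q, hq, hqh⟩ := hne
  refine eqOn_of_convex hUo hUc hf hq ?_
  have hc : Continuous (fun z : Fin (m + 2) → ℂ => ((z 0 - cl.2 * z 1, cl.2) : ℂ × ℂ)) := by
    fun_prop
  have hval : ((q 0 - cl.2 * q 1, cl.2) : ℂ × ℂ) = cl := by
    have : q 0 = cl.1 + cl.2 * q 1 := hqh
    rw [this]; ext <;> simp
  have h1 : ∀ᶠ z in 𝓝 q, ((z 0 - cl.2 * z 1, cl.2) : ℂ × ℂ) ∈ B := by
    have := hc.tendsto q
    rw [hval] at this
    exact this.eventually (hB.mem_nhds hcl)
  filter_upwards [h1, hUo.mem_nhds hq] with z hz hzU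
  refine h0 _ hz z ⟨?_, hzU⟩
  show z 0 = _
  simp

theorem step1 {m : ℕ} {U : Set (Fin (m + 2) → ℂ)} (hUo : IsOpen U) (hUc : Convex ℝ U) :
    ∀ (k : ℕ) (W : Submodule ℂ ((Fin (m + 2) → ℂ) → ℂ)), (∀ f ∈ W, DifferentiableOn ℂ f U) →
      ∀ B : Set (ℂ × ℂ), IsOpen B → (∃ cl ∈ B, ∃ z ∈ U, z ∈ hyp (m := m) cl) →
      (∀ cl ∈ B, rk W (hyp cl ∩ U) ≤ (k : Cardinal)) →
      rk W U ≤ (tri k : Cardinal) := by
  intro k
  induction k with
  | zero =>
    intro W hW B hB hne hk
    have : rk W U = 0 := by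
      refine rk_zero fun f hf => all_zero hUo hUc (hW f hf) hB hne fun cl hcl z hz => ?_
      have h1 := hk cl hcl
      unfold rk at h1
      have h2 : Module.rank ℂ (W.map (rs (hyp cl ∩ U))) = 0 := by
        simpa using h1
      rw [rank_zero_iff] at h2
      have h3 : (⟨rs (hyp cl ∩ U) f, Submodule.mem_map_of_mem hf⟩ :
        W.map (rs (hyp cl ∩ U))) = 0 := Subsingleton.elim _ _
      have h4 := congrFun (congrArg Subtype.val h3) ⟨z, hz⟩
      simpa using h4
    rw [this]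
    simp
  | succ k ih =>
    intro W hW B hB hne hk
    by_cases hall : ∀ cl ∈ B, ∀ f ∈ W, ∀ z ∈ hyp (m := m) cl ∩ U, f z = 0
    · have : rk W U = 0 := rk_zero fun f hf => all_zero hUo hUc (hW f hf) hB hne
        fun cl hcl z hz => hall cl hcl f hf z hz
      rw [this]
      simp
    · push Not at hall
      obtain ⟨cl1, hcl1, f0, hf0, q, ⟨hqh, hqU⟩, hfq⟩ := hall
      set W1 := W ⊓ LinearMap.ker (rs (hyp cl1 ∩ U)) with hW1
      have hW1z : ∀ f ∈ W1, ∀ z ∈ hyp cl1 ∩ U, f z = 0 := by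
        intro f hf z hz
        have := congrFun (LinearMap.mem_ker.1 hf.2) ⟨z, hz⟩
        simpa using this
      -- the intersection point
      let η : ℂ × ℂ → ℂ := fun cl => -(cl.1 - cl1.1) / (cl.2 - cl1.2)
      let pt : ℂ × ℂ → (Fin (m + 2) → ℂ) := fun cl =>
        Function.update (Function.update q 1 (η cl)) 0 (cl1.1 + cl1.2 * η cl)
      have hpt0 : ∀ cl, pt cl 0 = cl1.1 + cl1.2 * η cl := fun cl => by simp [pt]
      have hpt1 : ∀ cl, pt cl 1 = η cl := fun cl => by simp [pt]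
      -- a good parameter
      obtain ⟨ε, hε, hεB⟩ : ∃ ε : ℂ, ε ≠ 0 ∧ (cl1.1 - ε * q 1, cl1.2 + ε) ∈ B := by
        have hc : Continuous (fun ε : ℂ => ((cl1.1 - ε * q 1, cl1.2 + ε) : ℂ × ℂ)) := by
          fun_prop
        have h1 : Tendsto (fun ε : ℂ => ((cl1.1 - ε * q 1, cl1.2 + ε) : ℂ × ℂ)) (𝓝[≠] 0)
            (𝓝 cl1) := by
          have := (hc.tendsto 0).mono_left (nhdsWithin_le_nhds (s := {0}ᶜ))
          simpa using this
        have h2 := (h1.eventually (hB.mem_nhds hcl1)).and self_mem_nhdsWithin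
        obtain ⟨ε, hε1, hε2⟩ := h2.exists
        exact ⟨ε, hε2, hε1⟩
      set cs : ℂ × ℂ := (cl1.1 - ε * q 1, cl1.2 + ε) with hcs
      have hηs : η cs = q 1 := by
        simp only [η, hcs]
        have : -(cl1.1 - ε * q 1 - cl1.1) = q 1 * (cl1.2 + ε - cl1.2) := by ring
        rw [this, mul_div_assoc, div_self (by simpa using hε), mul_one]
      have hpts : pt cs = q := by
        have hq0 : q 0 = cl1.1 + cl1.2 * q 1 := hqh
        simp only [pt, hηs, ← hq0]
        simp
      have hcs2 : cs.2 - cl1.2 ≠ 0 := by simp [hcs, hε]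
      have hηc : ContinuousAt η cs := by
        refine ContinuousAt.div ?_ ?_ hcs2
        · fun_prop
        · fun_prop
      have hptc : ContinuousAt pt cs := by
        rw [continuousAt_pi]
        intro i
        by_cases hi0 : i = 0
        · subst hi0
          simp only [hpt0]
          fun_prop
        · by_cases hi1 : i = 1
          · subst hi1
            simp only [hpt1]
            exact hηc
          · have : (fun cl => pt cl i) = fun _ => q i := by
              funext cl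
              simp [pt, hi0, hi1]
            rw [this]
            exact continuousAt_const
      have hfc : ContinuousAt (fun cl => f0 (pt cl)) cs := by
        have h1 : ContinuousAt f0 (pt cs) := by
          rw [hpts]
          exact ((hW f0 hf0).continuousOn).continuousAt (hUo.mem_nhds hqU)
        exact ContinuousAt.comp (f := pt) (g := f0) h1 hptc
      have hev : ∀ᶠ cl in 𝓝 cs, cl ∈ B ∧ cl.2 - cl1.2 ≠ 0 ∧ pt cl ∈ U ∧ f0 (pt cl) ≠ 0 := by
        have hB' : ∀ᶠ cl in 𝓝 cs, cl ∈ B := hB.mem_nhds hεB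
        refine hB'.and ?_
        refine ((show ContinuousAt (fun cl : ℂ × ℂ => cl.2 - cl1.2) cs by fun_prop).eventually_ne
          hcs2).and ?_
        refine (hptc.eventually (by rw [hpts]; exact hUo.mem_nhds hqU)).and ?_
        exact hfc.eventually_ne (by rw [hpts]; exact hfq)
      obtain ⟨B1, hB1, hB1o, hcsB1⟩ := eventually_nhds_iff.1 hev
      have hk1 : ∀ cl ∈ B1, rk W1 (hyp cl ∩ U) ≤ (k : Cardinal) := by
        intro cl hcl
        obtain ⟨hclB, hne2, hptU, hfpt⟩ := hB1 cl hcl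
        have hmem : pt cl ∈ hyp cl ∩ U := by
          refine ⟨?_, hptU⟩
          show pt cl 0 = cl.1 + cl.2 * pt cl 1
          rw [hpt0, hpt1]
          simp only [η]
          field_simp
          ring
        have hmem1 : pt cl ∈ hyp cl1 ∩ U := by
          refine ⟨?_, hptU⟩
          show pt cl 0 = cl1.1 + cl1.2 * pt cl 1
          rw [hpt0, hpt1]
        exact rk_lt inf_le_left hmem hf0 hfpt (fun f hf => hW1z f hf _ hmem1) (hk cl hclB)
      have h3 := ih W1 (fun f hf => hW f hf.1) B1 hB1o ⟨cs, hcsB1, q, hqU, by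
        show q 0 = cs.1 + cs.2 * q 1
        have hq0 : q 0 = cl1.1 + cl1.2 * q 1 := hqh
        rw [hq0]; simp only [hcs]; ring⟩ hk1
      have h4 := rk_add W (S := hyp cl1 ∩ U) (U := U) inter_subset_right
      refine h4.trans ?_
      have h5 := add_le_add (hk cl1 hcl1) h3
      refine h5.trans (le_of_eq ?_)
      simp [tri]

end Pool.Agent.Y276.HR
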