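import Mathlib
import Pool.Agent.Y276.HRIdent
import Pool.Agent.Y276.HRCplx
import Pool.Agent.Y276.HRRank
import Pool.Agent.Y276.HRInduct

set_option autoImplicit false

namespace Pool.Agent.Y276.HR

open Set Filter Topology Metric

/-- conjugating a holomorphic function on both sides gives a holomorphic function -/
theorem differentiableAt_star_star {V : Type*} [NormedAddCommGroup V] [NormedSpace ℂ V]
    [StarAddMonoid V] [StarModule ℂ V] [ContinuousStar V] {g : V → ℂ} {y : V}
    (hg : DifferentiableAt ℂ g (star y)) : DifferentiableAt ℂ (fun y => star (g (star y))) y := by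
  let cj : V →L[ℝ] V :=
    { toFun := star
      map_add' := star_add
      map_smul' := fun t v => by
        have : (t • v : V) = ((t : ℂ)) • v := (Complex.coe_smul t v).symm
        rw [this, star_smul]
        simp
      cont := continuous_star }
  let G : V →L[ℂ] ℂ :=
    { toFun := fun v => star (fderiv ℂ g (star y) (star v))
      map_add' := fun a b => by simp [star_add, map_add]
      map_smul' := fun t v => by simp [star_smul, map_smul]
      cont := by
        exact continuous_star.comp ((fderiv ℂ g (star y)).continuous.comp continuous_star) }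
  have h1 : HasFDerivAt g ((fderiv ℂ g (star y)).restrictScalars ℝ) (cj y) :=
    hg.hasFDerivAt.restrictScalars ℝ
  have h2 : HasFDerivAt (fun v => g (cj v)) (((fderiv ℂ g (star y)).restrictScalars ℝ).comp cj) y :=
    h1.comp y cj.hasFDerivAt
  have h3 : HasFDerivAt (fun v => Complex.conjCLE (g (cj v)))
      ((Complex.conjCLE : ℂ →L[ℝ] ℂ).comp
        (((fderiv ℂ g (star y)).restrictScalars ℝ).comp cj)) y :=
    (Complex.conjCLE : ℂ →L[ℝ] ℂ).hasFDerivAt.comp y h2
  have h4 : HasFDerivAt (fun v => star (g (star v))) G y := by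
    refine hasFDerivAt_of_restrictScalars ℝ (g' := (Complex.conjCLE : ℂ →L[ℝ] ℂ).comp
        (((fderiv ℂ g (star y)).restrictScalars ℝ).comp cj)) h3 ?_
    ext v
    rfl
  exact h4.differentiableAt

theorem differentiableAt_prod' {V ι : Type*} [NormedAddCommGroup V] [NormedSpace ℂ V]
    (u : Finset ι) (f : ι → V → ℂ) (x : V) (h : ∀ i, DifferentiableAt ℂ (f i) x) :
    DifferentiableAt ℂ (fun t => ∏ i ∈ u, f i t) x := by
  classical
  induction u using Finset.induction_on with
  | empty => simp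
  | insert a s ha ih =>
    simp only [Finset.prod_insert ha]
    exact (h a).mul ih

theorem det_zero_of_fact {k : ℕ} (a : Fin (k + 1) → Fin k → ℂ) (b : Fin k → Fin (k + 1) → ℂ) :
    (Matrix.of fun i j => ∑ l, a i l * b l j).det = 0 := by
  classical
  have h1 : (Matrix.of fun i j => ∑ l, a i l * b l j) = Matrix.of a * Matrix.of b := by
    ext i j
    simp [Matrix.mul_apply]
  rw [h1, ← Matrix.exists_mulVec_eq_zero_iff]
  have h2 : LinearMap.ker (Matrix.of b).mulVecLin ≠ ⊥ := by
    refine LinearMap.ker_ne_bot_of_finrank_lt ?_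
    simp
  obtain ⟨v, hv, hv0⟩ := (Submodule.ne_bot_iff _).1 h2
  refine ⟨v, hv0, ?_⟩
  rw [← Matrix.mulVec_mulVec]
  have : (Matrix.of b).mulVec v = 0 := by simpa using hv
  rw [this, Matrix.mulVec_zero]

/-- parametrisation of the hyperplane `z₀ = c + λ z₁` -/
def emb {m : ℕ} (cl : ℂ × ℂ) (x : Fin (m + 1) → ℂ) : Fin (m + 2) → ℂ :=
  Fin.cons (cl.1 + cl.2 * x 0) x

theorem emb_tail {m : ℕ} {cl : ℂ × ℂ} {z : Fin (m + 2) → ℂ} (hz : z ∈ hyp cl) :
    emb cl (Fin.tail z) = z := by
  have h : z 0 = cl.1 + cl.2 * z 1 := hz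
  unfold emb
  have h1 : Fin.tail z 0 = z 1 := rfl
  rw [h1, ← h, Fin.cons_self_tail]

theorem star_emb {m : ℕ} (cl : ℂ × ℂ) (x : Fin (m + 1) → ℂ) :
    star (emb cl x) = emb (star cl) (star x) := by
  funext i
  refine Fin.cases ?_ (fun i => ?_) i
  · simp [emb]
  · simp [emb]

theorem differentiable_emb (m : ℕ) :
    Differentiable ℂ (fun t : (ℂ × ℂ) × (Fin (m + 1) → ℂ) => emb t.1 t.2) := by
  rw [differentiable_pi]
  intro i
  refine Fin.cases ?_ (fun i => ?_) i
  · simp only [emb, Fin.cons_zero]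
    fun_prop
  · simp only [emb, Fin.cons_succ]
    fun_prop

/-- the hyperplane hypothesis -/
def HypRank (k m : ℕ) (p : (Fin (m + 2) → ℂ) → ℝ) : Prop :=
  ∀ cl : ℂ × ℂ, ∃ (ε : Fin k → ℝ) (g : Fin k → (Fin (m + 1) → ℂ) → ℂ),
    (∀ j, Differentiable ℂ (g j)) ∧ ∀ x, p (emb cl x) = ∑ j, ε j * Complex.normSq (g j x)

/-- local data: a polarisation of `p` near `z₀` of finite rank -/
structure LD {m : ℕ} (N : ℕ) (p : (Fin (m + 2) → ℂ) → ℝ) (z₀ : Fin (m + 2) → ℂ) (δ : ℝ)
    (P : (Fin (m + 2) → ℂ) → (Fin (m + 2) → ℂ) → ℂ) : Prop where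
  diff : ∀ z w, z ∈ ball z₀ δ → star w ∈ ball z₀ δ →
    DifferentiableAt ℂ (fun x : (Fin (m + 2) → ℂ) × (Fin (m + 2) → ℂ) => P x.1 x.2) (z, w)
  eq : ∀ z ∈ ball z₀ δ, P z (star z) = (p z : ℂ)
  rank : rk (col P {w | star w ∈ ball z₀ δ}) (ball z₀ δ) ≤ (N : Cardinal)

theorem mem_span_diff {V Y : Type} [NormedAddCommGroup V] [NormedSpace ℂ V] (K : V → Y → ℂ)
    (T : Set Y) (U : Set V) (h : ∀ y ∈ T, DifferentiableOn ℂ (fun x => K x y) U) :
    ∀ f ∈ col K T, DifferentiableOn ℂ f U := by
  intro f hf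
  refine Submodule.span_induction ?_ ?_ ?_ ?_ hf
  · rintro _ ⟨y, hy, rfl⟩
    exact h y hy
  · exact differentiableOn_const _
  · intro a b _ _ ha hb
    exact ha.add hb
  · intro c a _ ha
    exact ha.const_smul c

theorem exists_LD {m k : ℕ} {p : (Fin (m + 2) → ℂ) → ℝ} (hp : HypRank k m p)
    {z₀ : Fin (m + 2) → ℂ} (ha : AnalyticAt ℝ p z₀) :
    ∃ r > 0, ∃ P, LD (tri (tri k)) p z₀ r P := by
  obtain ⟨r, hr, P₀, hP₀, hP₀e⟩ := exists_cplx p z₀ ha
  set P : (Fin (m + 2) → ℂ) → (Fin (m + 2) → ℂ) → ℂ := fun z w => P₀ (z, w) with hPdef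
  set D := ball z₀ r with hD
  set D' : Set (Fin (m + 2) → ℂ) := {w | star w ∈ D} with hD'
  have hDo : IsOpen D := isOpen_ball
  have hDc : Convex ℝ D := convex_ball _ _
  have hD'o : IsOpen D' := hDo.preimage continuous_star
  have hD'c : Convex ℝ D' := by
    intro a ha b hb t u ht hu htu
    show star (t • a + u • b) ∈ D
    have : star (t • a + u • b) = t • star a + u • star b := by
      simp [star_add, star_smul]
    rw [this]
    exact hDc ha hb ht hu htu
  have hdiff : ∀ z w, z ∈ D → star w ∈ D →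
      DifferentiableAt ℂ (fun x : (Fin (m + 2) → ℂ) × (Fin (m + 2) → ℂ) => P x.1 x.2) (z, w) := by
    intro z w hz hw
    refine hP₀ (z, w) ?_
    rw [mem_ball, Prod.dist_eq, max_lt_iff]
    refine ⟨hz, ?_⟩
    have h1 : dist w (star z₀) = dist (star w) z₀ := by
      rw [dist_eq_norm, dist_eq_norm, ← norm_star (w - star z₀), star_sub, star_star]
    show dist w (star z₀) < r
    rw [h1]
    exact hw
  -- parameters
  set ρ : ℝ := r / (2 * (‖z₀ 1‖ + r)) with hρ
  have hρpos : 0 < ρ := by positivity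
  set B : Set (ℂ × ℂ) := ball (z₀ 0) (r / 2) ×ˢ ball 0 ρ with hB
  have hBo : IsOpen B := isOpen_ball.prod isOpen_ball
  have hBc : Convex ℝ B := (convex_ball _ _).prod (convex_ball _ _)
  have hembD : ∀ cl ∈ B, ∀ τ ∈ D, emb cl (Fin.tail τ) ∈ D := by
    intro cl hcl τ hτ
    rw [hD, mem_ball, dist_pi_lt_iff hr] at hτ ⊢
    intro i
    refine Fin.cases ?_ (fun i => ?_) i
    · have h1 : ‖cl.1 - z₀ 0‖ < r / 2 := by
        have := hcl.1; rwa [mem_ball, dist_eq_norm] at this
      have h2 : ‖cl.2‖ < ρ := by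
        have := hcl.2; rwa [mem_ball, dist_zero_right] at this
      have h3 : ‖τ 1‖ < ‖z₀ 1‖ + r := by
        have := hτ 1
        rw [dist_eq_norm] at this
        calc ‖τ 1‖ = ‖z₀ 1 + (τ 1 - z₀ 1)‖ := by congr 1; ring
          _ ≤ ‖z₀ 1‖ + ‖τ 1 - z₀ 1‖ := norm_add_le _ _
          _ < ‖z₀ 1‖ + r := by linarith
      have h4 : ‖cl.2 * τ 1‖ ≤ r / 2 := by
        rw [norm_mul]
        calc ‖cl.2‖ * ‖τ 1‖ ≤ ρ * (‖z₀ 1‖ + r) := by
              gcongr
          _ = r / 2 := by rw [hρ]; field_simp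
      show dist (cl.1 + cl.2 * τ 1) (z₀ 0) < r
      rw [dist_eq_norm]
      calc ‖cl.1 + cl.2 * τ 1 - z₀ 0‖ = ‖(cl.1 - z₀ 0) + cl.2 * τ 1‖ := by congr 1; ring
        _ ≤ ‖cl.1 - z₀ 0‖ + ‖cl.2 * τ 1‖ := norm_add_le _ _
        _ < r := by linarith
    · exact hτ i.succ
  -- polarisation on a hyperplane
  have hpol : ∀ cl : ℂ × ℂ, ∃ (a : Fin k → (Fin (m + 1) → ℂ) → ℂ)
      (b : Fin k → (Fin (m + 1) → ℂ) → ℂ), ∀ x y, emb cl x ∈ D → emb cl y ∈ D →
      P (emb cl x) (star (emb cl y)) = ∑ l, a l x * b l y := by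
    intro cl
    obtain ⟨ε, g, hg, hpg⟩ := hp cl
    refine ⟨fun l x => ε l * g l x, fun l y => star (g l y), fun x y hx hy => ?_⟩
    let Ω : Set (Fin (m + 1) → ℂ) := {x | emb cl x ∈ D}
    have hed : Differentiable ℂ (fun x : Fin (m + 1) → ℂ => emb cl x) :=
      (differentiable_emb m).comp (by fun_prop : Differentiable ℂ fun x => (cl, x))
    have hed' : Differentiable ℂ (fun x : Fin (m + 1) → ℂ => emb (star cl) x) :=
      (differentiable_emb m).comp (by fun_prop : Differentiable ℂ fun x => (star cl, x))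
    have hΩo : IsOpen Ω := hDo.preimage hed.continuous
    have hΩc : Convex ℝ Ω := by
      intro a ha b hb t u ht hu htu
      show emb cl (t • a + u • b) ∈ D
      have : emb cl (t • a + u • b) = t • emb cl a + u • emb cl b := by
        funext i
        refine Fin.cases ?_ (fun i => ?_) i
        · simp only [emb, Fin.cons_zero, Pi.add_apply, Pi.smul_apply, Complex.real_smul]
          have : (t : ℂ) + u = 1 := by exact_mod_cast htu
          have h1 : cl.1 = ((t : ℂ) + u) * cl.1 := by rw [this, one_mul]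
          calc cl.1 + cl.2 * (t * a 0 + u * b 0) =
              ((t : ℂ) + u) * cl.1 + cl.2 * (t * a 0 + u * b 0) := by rw [← h1]
            _ = t * (cl.1 + cl.2 * a 0) + u * (cl.1 + cl.2 * b 0) := by ring
        · simp [emb]
      rw [this]
      exact hDc ha hb ht hu htu
    let F : (Fin (m + 1) → ℂ) × (Fin (m + 1) → ℂ) → ℂ := fun t =>
      P (emb cl t.1) (emb (star cl) t.2) - ∑ l, ε l * g l t.1 * star (g l (star t.2))
    have hF : ∀ z w, z ∈ Ω → star w ∈ Ω → DifferentiableAt ℂ F (z, w) := by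
      intro z w hz hw
      refine DifferentiableAt.sub ?_ ?_
      · have h1 : star (emb (star cl) w) ∈ D := by
          rw [star_emb, star_star]; exact hw
        have h2 := hdiff (emb cl z) (emb (star cl) w) hz h1
        have h3 : DifferentiableAt ℂ (fun t : (Fin (m + 1) → ℂ) × (Fin (m + 1) → ℂ) =>
            (emb cl t.1, emb (star cl) t.2)) (z, w) := by
          have ha : DifferentiableAt ℂ (fun t : (Fin (m + 1) → ℂ) × (Fin (m + 1) → ℂ) =>
            emb cl t.1) (z, w) := (hed.comp differentiable_fst) (z, w)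
          have hb : DifferentiableAt ℂ (fun t : (Fin (m + 1) → ℂ) × (Fin (m + 1) → ℂ) =>
            emb (star cl) t.2) (z, w) := (hed'.comp differentiable_snd) (z, w)
          exact ha.prodMk hb
        exact DifferentiableAt.comp (f := fun t : (Fin (m + 1) → ℂ) × (Fin (m + 1) → ℂ) =>
            (emb cl t.1, emb (star cl) t.2)) (z, w) h2 h3
      · refine DifferentiableAt.fun_sum fun l _ => ?_
        refine DifferentiableAt.mul ?_ ?_
        · refine DifferentiableAt.const_mul ?_ _
          exact ((hg l).comp differentiable_fst) (z, w)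
        · have h4 : DifferentiableAt ℂ (fun y => star (g l (star y))) w :=
            differentiableAt_star_star (hg l _)
          exact DifferentiableAt.comp (g := fun y => star (g l (star y)))
            (f := Prod.snd) (z, w) h4 differentiableAt_snd
    have hF0 : ∀ z ∈ Ω, F (z, star z) = 0 := by
      intro z hz
      have h1 : emb (star cl) (star z) = star (emb cl z) := (star_emb cl z).symm
      simp only [F]
      rw [h1, star_star]
      have h2 : P (emb cl z) (star (emb cl z)) = (p (emb cl z) : ℂ) := hP₀e _ hz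
      rw [h2, hpg z]
      push_cast
      rw [sub_eq_zero]
      refine Finset.sum_congr rfl fun l _ => ?_
      rw [mul_assoc]
      congr 1
      rw [Complex.normSq_eq_conj_mul_self, mul_comm]
      rfl
    have h5 := trip hΩo hΩc hF hF0 x (star y) hx (by rw [star_star]; exact hy)
    simp only [F] at h5
    rw [sub_eq_zero, ← star_emb, star_star] at h5
    exact h5
  -- vanishing of minors
  have hminor : ∀ (z w : Fin (k + 1) → (Fin (m + 2) → ℂ)), (∀ i, z i ∈ D) →
      (∀ j, star (w j) ∈ D) → ∀ cl cl', cl ∈ B → star cl' ∈ B →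
      (Matrix.of fun i j => P (emb cl (Fin.tail (z i))) (emb cl' (Fin.tail (w j)))).det = 0 := by
    intro z w hz hw
    let F : (ℂ × ℂ) × (ℂ × ℂ) → ℂ := fun t =>
      (Matrix.of fun i j => P (emb t.1 (Fin.tail (z i))) (emb t.2 (Fin.tail (w j)))).det
    have hF : ∀ cl cl', cl ∈ B → star cl' ∈ B → DifferentiableAt ℂ F (cl, cl') := by
      intro cl cl' hcl hcl'
      simp only [F, Matrix.det_apply, Matrix.of_apply]
      refine DifferentiableAt.fun_sum fun σ _ => ?_
      refine DifferentiableAt.const_smul ?_ _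
      refine differentiableAt_prod' _ _ _ fun i => ?_
      have h1 : star (emb cl' (Fin.tail (w i))) ∈ D := by
        rw [star_emb]; exact hembD _ hcl' (star (w i)) (hw i)
      have h2 := hdiff (emb cl (Fin.tail (z (σ i)))) (emb cl' (Fin.tail (w i)))
        (hembD cl hcl _ (hz _)) h1
      have h3 : DifferentiableAt ℂ (fun t : (ℂ × ℂ) × (ℂ × ℂ) =>
          (emb t.1 (Fin.tail (z (σ i))), emb t.2 (Fin.tail (w i)))) (cl, cl') := by
        have ha : ∀ x : Fin (m + 1) → ℂ, Differentiable ℂ (fun c : ℂ × ℂ => emb c x) := fun x =>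
          (differentiable_emb m).comp (by fun_prop : Differentiable ℂ fun c : ℂ × ℂ => (c, x))
        have hb : DifferentiableAt ℂ (fun t : (ℂ × ℂ) × (ℂ × ℂ) =>
            emb t.1 (Fin.tail (z (σ i)))) (cl, cl') :=
          ((ha (Fin.tail (z (σ i)))).comp differentiable_fst) (cl, cl')
        have hc : DifferentiableAt ℂ (fun t : (ℂ × ℂ) × (ℂ × ℂ) =>
            emb t.2 (Fin.tail (w i))) (cl, cl') :=
          ((ha (Fin.tail (w i))).comp differentiable_snd) (cl, cl')
        exact hb.prodMk hc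
      exact DifferentiableAt.comp (f := fun t : (ℂ × ℂ) × (ℂ × ℂ) =>
          (emb t.1 (Fin.tail (z (σ i))), emb t.2 (Fin.tail (w i)))) (cl, cl') h2 h3
    have hF0 : ∀ cl ∈ B, F (cl, star cl) = 0 := by
      intro cl hcl
      obtain ⟨a, b, hab⟩ := hpol cl
      simp only [F]
      have h1 : (Matrix.of fun i j => P (emb cl (Fin.tail (z i)))
          (emb (star cl) (Fin.tail (w j)))) =
          Matrix.of fun i j => ∑ l, a l (Fin.tail (z i)) * b l (Fin.tail (star (w j))) := by
        ext i j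
        simp only [Matrix.of_apply]
        rw [← hab _ _ (hembD cl hcl _ (hz i)) (hembD cl hcl _ (hw j)), star_emb]
        congr 2
        funext t
        simp [Fin.tail]
      rw [h1]
      exact det_zero_of_fact (fun i l => a l (Fin.tail (z i)))
        (fun l j => b l (Fin.tail (star (w j))))
    intro cl cl' hcl hcl'
    exact trip hBo hBc hF hF0 cl cl' hcl hcl'
  have hcl0 : ((z₀ 0, 0) : ℂ × ℂ) ∈ B := by
    refine ⟨?_, ?_⟩
    · simp [hr]
    · simp [hρpos]
  -- first application
  have hst1 : ∀ cl', star cl' ∈ B → rk (col P (hyp cl' ∩ D')) D ≤ (tri k : Cardinal) := by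
    intro cl' hcl'
    refine step1 hDo hDc k _ ?_ B hBo ⟨_, hcl0, z₀, mem_ball_self hr, ?_⟩ ?_
    · refine mem_span_diff P _ _ fun w hw => ?_
      intro z hz
      have h2 := hdiff z w hz hw.2
      exact (DifferentiableAt.comp (f := fun t : (Fin (m + 2) → ℂ) => (t, w)) z h2
        (by fun_prop)).differentiableWithinAt
    · show z₀ 0 = z₀ 0 + 0 * z₀ 1
      ring
    · intro cl hcl
      refine rk_of_minor_zero P _ _ fun x y hx hy => ?_
      have h1 := hminor x y (fun i => (hx i).2) (fun j => (hy j).2) cl cl' hcl hcl'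
      have h2 : ∀ i, emb cl (Fin.tail (x i)) = x i := fun i => emb_tail (hx i).1
      have h3 : ∀ j, emb cl' (Fin.tail (y j)) = y j := fun j => emb_tail (hy j).1
      simpa only [h2, h3] using h1
  have hst2 : rk (col (fun w z => P z w) D) D' ≤ (tri (tri k) : Cardinal) := by
    refine step1 hD'o hD'c (tri k) _ ?_ {cl' | star cl' ∈ B} (hBo.preimage continuous_star)
      ⟨star (z₀ 0, 0), by show star (star _) ∈ B; rw [star_star]; exact hcl0, star z₀, ?_, ?_⟩ ?_
    · refine mem_span_diff (fun w z => P z w) _ _ fun z hz => ?_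
      intro w hw
      have h2 := hdiff z w hz hw
      exact (DifferentiableAt.comp (f := fun t : (Fin (m + 2) → ℂ) => (z, t)) w h2
        (by fun_prop)).differentiableWithinAt
    · show star (star z₀) ∈ D
      rw [star_star]; exact mem_ball_self hr
    · show star (z₀ 0) = star (z₀ 0) + star 0 * star (z₀ 1)
      simp
    · intro cl' hcl'
      exact rk_transpose P _ _ (hst1 cl' hcl')
  refine ⟨r, hr, P, hdiff, hP₀e, ?_⟩
  exact rk_transpose (fun w z => P z w) _ _ hst2

end Pool.Agent.Y276.HR
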