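import Mathlib
import Pool.Agent.Y276.HRLocal

set_option autoImplicit false

namespace Pool.Agent.Y276.HR

open Set Filter Topology Metric

theorem rk_mono {X : Type} {W W' : Submodule ℂ (X → ℂ)} (h : W ≤ W') {S S' : Set X}
    (hS : S ⊆ S') : rk W S ≤ rk W' S' := by
  let ρ : (S' → ℂ) →ₗ[ℂ] (S → ℂ) := LinearMap.funLeft ℂ ℂ (Set.inclusion hS)
  have h1 : W'.map (rs S) = (W'.map (rs S')).map ρ := by
    rw [← Submodule.map_comp]
    rfl
  calc rk W S ≤ Module.rank ℂ (W'.map (rs S)) := Submodule.rank_mono (Submodule.map_mono h)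
    _ ≤ rk W' S' := by
      rw [h1]
      exact rank_map_le _ _

theorem col_mono {X Y : Type} (K : X → Y → ℂ) {T T' : Set Y} (h : T ⊆ T') : col K T ≤ col K T' :=
  Submodule.span_mono (image_mono h)

variable {m : ℕ}

theorem LD.mono {N : ℕ} {p : (Fin (m + 2) → ℂ) → ℝ} {z₀ z₁ : Fin (m + 2) → ℂ} {δ δ₁ : ℝ}
    {P : (Fin (m + 2) → ℂ) → (Fin (m + 2) → ℂ) → ℂ} (h : LD N p z₀ δ P)
    (hs : ball z₁ δ₁ ⊆ ball z₀ δ) : LD N p z₁ δ₁ P := by
  have h1 : {w : Fin (m + 2) → ℂ | star w ∈ ball z₁ δ₁} ⊆ {w | star w ∈ ball z₀ δ} :=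
    fun w hw => hs hw
  have h2 : rk (col P {w | star w ∈ ball z₁ δ₁}) (ball z₁ δ₁) ≤
      rk (col P {w | star w ∈ ball z₀ δ}) (ball z₀ δ) := rk_mono (col_mono P h1) hs
  refine ⟨?_, ?_, ?_⟩
  · intro z w hz hw
    exact h.diff z w (hs hz) (hs hw)
  · intro z hz
    exact h.eq z (hs hz)
  · exact le_trans h2 h.rank

/-- the space of germs -/
abbrev VV (P : (Fin (m + 2) → ℂ) → (Fin (m + 2) → ℂ) → ℂ) (z : Fin (m + 2) → ℂ) (δ : ℝ) :
    Submodule ℂ ((Fin (m + 2) → ℂ) → ℂ) := col P {w | star w ∈ ball z δ}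

theorem LD.diff_left {N : ℕ} {p : (Fin (m + 2) → ℂ) → ℝ} {z₀ : Fin (m + 2) → ℂ} {δ : ℝ}
    {P : (Fin (m + 2) → ℂ) → (Fin (m + 2) → ℂ) → ℂ} (h : LD N p z₀ δ P)
    {z w : Fin (m + 2) → ℂ} (hz : z ∈ ball z₀ δ) (hw : star w ∈ ball z₀ δ) :
    DifferentiableAt ℂ (fun t => P t w) z :=
  DifferentiableAt.comp (f := fun t : (Fin (m + 2) → ℂ) => (t, w)) z (h.diff z w hz hw)
    (by fun_prop)

theorem LD.diff_right {N : ℕ} {p : (Fin (m + 2) → ℂ) → ℝ} {z₀ : Fin (m + 2) → ℂ} {δ : ℝ}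
    {P : (Fin (m + 2) → ℂ) → (Fin (m + 2) → ℂ) → ℂ} (h : LD N p z₀ δ P)
    {z w : Fin (m + 2) → ℂ} (hz : z ∈ ball z₀ δ) (hw : star w ∈ ball z₀ δ) :
    DifferentiableAt ℂ (fun t => P z t) w :=
  DifferentiableAt.comp (f := fun t : (Fin (m + 2) → ℂ) => (z, t)) w (h.diff z w hz hw)
    (by fun_prop)

theorem LD.diff_mem {N : ℕ} {p : (Fin (m + 2) → ℂ) → ℝ} {z₀ : Fin (m + 2) → ℂ} {δ : ℝ}
    {P : (Fin (m + 2) → ℂ) → (Fin (m + 2) → ℂ) → ℂ} (h : LD N p z₀ δ P)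
    {g : (Fin (m + 2) → ℂ) → ℂ} (hg : g ∈ VV P z₀ δ) : DifferentiableOn ℂ g (ball z₀ δ) :=
  mem_span_diff P _ _ (fun _ hw _ hz => (h.diff_left hz hw).differentiableWithinAt) g hg

theorem isOpen_star {U : Set (Fin (m + 2) → ℂ)} (h : IsOpen U) : IsOpen {w | star w ∈ U} :=
  h.preimage continuous_star

theorem convex_star {U : Set (Fin (m + 2) → ℂ)} (h : Convex ℝ U) : Convex ℝ {w | star w ∈ U} := by
  intro a ha b hb t u ht hu htu
  show star (t • a + u • b) ∈ U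
  have : star (t • a + u • b) = t • star a + u • star b := by
    simp [star_add, star_smul]
  rw [this]
  exact h ha hb ht hu htu

/-- Transport of germs between overlapping balls. -/
theorem transport {N : ℕ} {p : (Fin (m + 2) → ℂ) → ℝ} {z₁ z₂ : Fin (m + 2) → ℂ} {δ₁ δ₂ : ℝ}
    {P₁ P₂ : (Fin (m + 2) → ℂ) → (Fin (m + 2) → ℂ) → ℂ} (h₁ : LD N p z₁ δ₁ P₁)
    (h₂ : LD N p z₂ δ₂ P₂) {q : Fin (m + 2) → ℂ} (hq₁ : q ∈ ball z₁ δ₁) (hq₂ : q ∈ ball z₂ δ₂)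
    {g : (Fin (m + 2) → ℂ) → ℂ} (hg : g ∈ VV P₁ z₁ δ₁) :
    ∃ g' ∈ VV P₂ z₂ δ₂, ∀ z ∈ ball z₁ δ₁ ∩ ball z₂ δ₂, g z = g' z := by
  set G := ball z₁ δ₁ ∩ ball z₂ δ₂ with hG
  have hGo : IsOpen G := isOpen_ball.inter isOpen_ball
  have hGc : Convex ℝ G := (convex_ball _ _).inter (convex_ball _ _)
  have hqG : q ∈ G := ⟨hq₁, hq₂⟩
  -- the two polarisations agree
  have hPP : ∀ z w, z ∈ G → star w ∈ G → P₁ z w = P₂ z w := by
    intro z w hz hw
    have := trip hGo hGc (F := fun x => P₁ x.1 x.2 - P₂ x.1 x.2)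
      (fun z w hz hw => (h₁.diff z w hz.1 hw.1).sub (h₂.diff z w hz.2 hw.2))
      (fun z hz => by
        show P₁ z (star z) - P₂ z (star z) = 0
        rw [h₁.eq z hz.1, h₂.eq z hz.2, sub_self]) z w hz hw
    exact sub_eq_zero.1 this
  -- the columns over `star G` span
  have hrk : rk (col P₁ {w | star w ∈ G}) (ball z₁ δ₁) ≤ (N : Cardinal) :=
    (rk_mono (col_mono _ fun w hw => hw.1) le_rfl).trans h₁.rank
  obtain ⟨M, -, y, x, hy, hx, hdet, hspan⟩ := exists_basis P₁ {w | star w ∈ G} (ball z₁ δ₁) hrk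
  set A := (Matrix.of fun i j => P₁ (x i) (y j))⁻¹ with hA
  have hkey : ∀ x' ∈ ball z₁ δ₁, ∀ y', star y' ∈ ball z₁ δ₁ →
      P₁ x' y' - ∑ j, (∑ i, A j i * P₁ (x i) y') * P₁ x' (y j) = 0 := by
    intro x' hx'
    refine eqOn_of_convex (isOpen_star isOpen_ball) (convex_star (convex_ball _ _))
      (f := fun y' => P₁ x' y' - ∑ j, (∑ i, A j i * P₁ (x i) y') * P₁ x' (y j))
      (q := star q) ?_ ?_ ?_
    · intro w hw
      refine DifferentiableAt.differentiableWithinAt ?_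
      refine (h₁.diff_right hx' hw).sub ?_
      refine DifferentiableAt.fun_sum fun j _ => ?_
      refine DifferentiableAt.mul_const ?_ _
      refine DifferentiableAt.fun_sum fun i _ => ?_
      exact (h₁.diff_right (hx i) hw).const_mul _
    · show star (star q) ∈ ball z₁ δ₁
      rw [star_star]; exact hq₁
    · have hqo : {w | star w ∈ G} ∈ 𝓝 (star q) :=
        (isOpen_star hGo).mem_nhds (by show star (star q) ∈ G; rw [star_star]; exact hqG)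
      filter_upwards [hqo] with y' hy'
      obtain ⟨γ, hγ⟩ := hspan y' hy'
      rw [sub_eq_zero, hγ x' hx']
      refine Finset.sum_congr rfl fun j _ => ?_
      rw [coeff_eq P₁ y x hdet y' γ (fun i => hγ (x i) (hx i)) j]
  refine Submodule.span_induction (p := fun g _ => ∃ g' ∈ VV P₂ z₂ δ₂, ∀ z ∈ G, g z = g' z)
    ?_ ?_ ?_ ?_ hg
  · rintro _ ⟨y', hy', rfl⟩
    refine ⟨∑ j, (∑ i, A j i * P₁ (x i) y') • (fun t => P₂ t (y j)), ?_, ?_⟩
    · refine Submodule.sum_mem _ fun j _ => Submodule.smul_mem _ _ ?_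
      exact Submodule.subset_span ⟨y j, (hy j).2, rfl⟩
    · intro z hz
      have := hkey z hz.1 y' hy'
      rw [sub_eq_zero] at this
      show P₁ z y' = _
      rw [this, Finset.sum_apply]
      refine Finset.sum_congr rfl fun j _ => ?_
      rw [hPP z (y j) hz (hy j)]
      rfl
  · exact ⟨0, Submodule.zero_mem _, fun z _ => rfl⟩
  · rintro a b _ _ ⟨a', ha', haa⟩ ⟨b', hb', hbb⟩
    exact ⟨a' + b', Submodule.add_mem _ ha' hb', fun z hz => by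
      rw [Pi.add_apply, Pi.add_apply, haa z hz, hbb z hz]⟩
  · rintro c a _ ⟨a', ha', haa⟩
    exact ⟨c • a', Submodule.smul_mem _ _ ha', fun z hz => by
      rw [Pi.smul_apply, Pi.smul_apply, haa z hz]⟩

/-- uniform radius on compact balls -/
theorem exists_uniform {k : ℕ} {p : (Fin (m + 2) → ℂ) → ℝ} (hp : HypRank k m p)
    (ha : AnalyticOnNhd ℝ p univ) (R : ℝ) :
    ∃ δ > 0, ∃ P : (Fin (m + 2) → ℂ) → (Fin (m + 2) → ℂ) → (Fin (m + 2) → ℂ) → ℂ,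
      ∀ z ∈ closedBall (0 : Fin (m + 2) → ℂ) R, LD (tri (tri k)) p z δ (P z) := by
  choose r hr P hP using fun z₀ : Fin (m + 2) → ℂ => exists_LD hp (ha z₀ (mem_univ _))
  obtain ⟨δ, hδ, h⟩ := lebesgue_number_lemma_of_metric (isCompact_closedBall (0 : Fin (m + 2) → ℂ) R)
    (c := fun z₀ => ball z₀ (r z₀)) (fun _ => isOpen_ball)
    (fun z _ => mem_iUnion.2 ⟨z, mem_ball_self (hr z)⟩)
  choose i hi using h
  classical
  refine ⟨δ, hδ, fun z => if hz : z ∈ closedBall (0 : Fin (m + 2) → ℂ) R then P (i z hz) else 0, ?_⟩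
  intro z hz
  simp only [hz, dif_pos]
  exact (hP (i z hz)).mono (hi z hz)

/-- one step of the extension process -/
theorem grow {N : ℕ} {p : (Fin (m + 2) → ℂ) → ℝ} {R δ : ℝ} (hδ : 0 < δ)
    {P : (Fin (m + 2) → ℂ) → (Fin (m + 2) → ℂ) → (Fin (m + 2) → ℂ) → ℂ}
    (hP : ∀ z ∈ closedBall (0 : Fin (m + 2) → ℂ) R, LD N p z δ (P z)) {ρ ρ' : ℝ} (hρ : 0 < ρ)
    (hρρ' : ρ ≤ ρ') (hρ'R : ρ' ≤ R) (hstep : ρ' ≤ ρ + δ) {F : (Fin (m + 2) → ℂ) → ℂ}
    (hF : ∀ z₁ ∈ ball (0 : Fin (m + 2) → ℂ) ρ, ∃ g ∈ VV (P z₁) z₁ δ,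
      ∀ z ∈ ball z₁ δ ∩ ball 0 ρ, F z = g z) :
    ∃ F' : (Fin (m + 2) → ℂ) → ℂ, (∀ z ∈ ball (0 : Fin (m + 2) → ℂ) ρ, F' z = F z) ∧
      ∀ z₁ ∈ ball (0 : Fin (m + 2) → ℂ) ρ', ∃ g ∈ VV (P z₁) z₁ δ,
        ∀ z ∈ ball z₁ δ ∩ ball 0 ρ', F' z = g z := by
  have hρ' : 0 < ρ' := hρ.trans_le hρρ'
  choose! g hg hFg using hF
  have hLD : ∀ c ∈ ball (0 : Fin (m + 2) → ℂ) ρ', LD N p c δ (P c) := fun c hc =>
    hP c (ball_subset_closedBall (ball_subset_ball hρ'R hc))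
  have hLDρ : ∀ c ∈ ball (0 : Fin (m + 2) → ℂ) ρ, LD N p c δ (P c) := fun c hc =>
    hLD c (ball_subset_ball hρρ' hc)
  -- consistency
  have hcons : ∀ c ∈ ball (0 : Fin (m + 2) → ℂ) ρ, ∀ c' ∈ ball (0 : Fin (m + 2) → ℂ) ρ,
      ∀ z, z ∈ ball c δ → z ∈ ball c' δ → g c z = g c' z := by
    intro c hc c' hc' z hz hz'
    have hcc : dist c c' < 2 * δ := by
      calc dist c c' ≤ dist c z + dist z c' := dist_triangle _ _ _
        _ < δ + δ := by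
          rw [dist_comm c z]
          exact add_lt_add hz hz'
        _ = 2 * δ := by ring
    let q : Fin (m + 2) → ℂ := midpoint ℝ c c'
    have hqc : q ∈ ball c δ := by
      rw [mem_ball, dist_midpoint_left, Real.norm_eq_abs, abs_of_pos (by norm_num : (0 : ℝ) < 2)]
      linarith
    have hqc' : q ∈ ball c' δ := by
      rw [mem_ball, dist_midpoint_right, Real.norm_eq_abs, abs_of_pos (by norm_num : (0 : ℝ) < 2)]
      linarith
    have hq0 : q ∈ ball (0 : Fin (m + 2) → ℂ) ρ :=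
      (convex_ball _ _).midpoint_mem hc hc'
    have h := eqOn_of_convex (isOpen_ball.inter isOpen_ball)
      ((convex_ball c δ).inter (convex_ball c' δ)) (f := fun z => g c z - g c' z)
      (q := q) ?_ ⟨hqc, hqc'⟩ ?_ z ⟨hz, hz'⟩
    · exact sub_eq_zero.1 h
    · exact (((hLDρ c hc).diff_mem (hg c hc)).mono inter_subset_left).sub
        (((hLDρ c' hc').diff_mem (hg c' hc')).mono inter_subset_right)
    · filter_upwards [isOpen_ball.mem_nhds hqc, isOpen_ball.mem_nhds hqc',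
        isOpen_ball.mem_nhds hq0] with t h1 h2 h3
      rw [← hFg c hc t ⟨h1, h3⟩, ← hFg c' hc' t ⟨h2, h3⟩, sub_self]
  -- the scaling map
  let s : (Fin (m + 2) → ℂ) → (Fin (m + 2) → ℂ) := fun z => (ρ / ρ') • z
  have hs0 : 0 < ρ / ρ' := div_pos hρ hρ'
  have hs1 : ρ / ρ' ≤ 1 := (div_le_one hρ').2 hρρ'
  have hsb : ∀ z ∈ ball (0 : Fin (m + 2) → ℂ) ρ', s z ∈ ball (0 : Fin (m + 2) → ℂ) ρ := by
    intro z hz
    rw [mem_ball_zero_iff] at hz ⊢
    show ‖(ρ / ρ') • z‖ < ρ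
    rw [norm_smul, Real.norm_eq_abs, abs_of_pos hs0]
    calc ρ / ρ' * ‖z‖ < ρ / ρ' * ρ' := mul_lt_mul_of_pos_left hz hs0
      _ = ρ := div_mul_cancel₀ _ hρ'.ne'
  have hsd : ∀ z ∈ ball (0 : Fin (m + 2) → ℂ) ρ', z ∈ ball (s z) δ := by
    intro z hz
    rw [mem_ball_zero_iff] at hz
    rw [mem_ball, dist_eq_norm]
    have h1 : z - s z = (1 - ρ / ρ') • z := by
      show z - (ρ / ρ') • z = _
      rw [sub_smul, one_smul]
    rw [h1, norm_smul, Real.norm_eq_abs, abs_of_nonneg (by linarith)]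
    rcases eq_or_lt_of_le hs1 with h2 | h2
    · rw [h2]; simpa using hδ
    · calc (1 - ρ / ρ') * ‖z‖ < (1 - ρ / ρ') * ρ' := mul_lt_mul_of_pos_left hz (by linarith)
        _ = ρ' - ρ := by field_simp
        _ ≤ δ := by linarith
  refine ⟨fun z => g (s z) z, ?_, ?_⟩
  · intro z hz
    have hz' := ball_subset_ball hρρ' hz
    exact (hFg (s z) (hsb z hz') z ⟨hsd z hz', hz⟩).symm
  · intro z₁ hz₁
    have hc₁ := hsb z₁ hz₁
    have hd₁ := hsd z₁ hz₁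
    have hs₁ : s z₁ ∈ ball z₁ δ := by rw [mem_ball_comm]; exact hd₁
    obtain ⟨g', hg', hgg'⟩ := transport (hLDρ _ hc₁) (hLD z₁ hz₁) (mem_ball_self hδ) hs₁
      (hg _ hc₁)
    refine ⟨g', hg', fun z hz => ?_⟩
    have hz0 : z ∈ ball (0 : Fin (m + 2) → ℂ) ρ' := hz.2
    have hcs : s z₁ ∈ ball (s z) δ := by
      rw [mem_ball, dist_eq_norm]
      have h1 : s z₁ - s z = (ρ / ρ') • (z₁ - z) := by
        show (ρ / ρ') • z₁ - (ρ / ρ') • z = _
        rw [smul_sub]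
      rw [h1, norm_smul, Real.norm_eq_abs, abs_of_pos hs0]
      have h2 : ‖z₁ - z‖ < δ := by
        have := hz.1
        rwa [mem_ball, dist_comm, dist_eq_norm] at this
      calc ρ / ρ' * ‖z₁ - z‖ ≤ 1 * ‖z₁ - z‖ := mul_le_mul_of_nonneg_right hs1 (norm_nonneg _)
        _ < δ := by rw [one_mul]; exact h2
    have h := eqOn_of_convex (isOpen_ball.inter isOpen_ball)
      ((convex_ball (s z) δ).inter (convex_ball z₁ δ)) (f := fun t => g (s z) t - g' t)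
      (q := s z₁) ?_ ⟨hcs, hs₁⟩ ?_ z ⟨hsd z hz0, hz.1⟩
    · exact sub_eq_zero.1 h
    · exact (((hLDρ _ (hsb z hz0)).diff_mem (hg _ (hsb z hz0))).mono inter_subset_left).sub
        (((hLD z₁ hz₁).diff_mem hg').mono inter_subset_right)
    · filter_upwards [isOpen_ball.mem_nhds hcs, isOpen_ball.mem_nhds hs₁,
        isOpen_ball.mem_nhds (mem_ball_self hδ : s z₁ ∈ ball (s z₁) δ)] with t h1 h2 h3
      rw [hcons (s z) (hsb z hz0) (s z₁) hc₁ t h1 h3, hgg' t ⟨h3, h2⟩, sub_self]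

/-- extension to a ball -/
theorem extend_ball {N : ℕ} {p : (Fin (m + 2) → ℂ) → ℝ} {R δ : ℝ} (hR : 0 < R) (hδ : 0 < δ)
    {P : (Fin (m + 2) → ℂ) → (Fin (m + 2) → ℂ) → (Fin (m + 2) → ℂ) → ℂ}
    (hP : ∀ z ∈ closedBall (0 : Fin (m + 2) → ℂ) R, LD N p z δ (P z))
    {f₀ : (Fin (m + 2) → ℂ) → ℂ} (hf₀ : f₀ ∈ VV (P 0) 0 δ) :
    ∃ F : (Fin (m + 2) → ℂ) → ℂ, (∀ᶠ z in 𝓝 0, F z = f₀ z) ∧ DifferentiableOn ℂ F (ball 0 R) := by
  have h0 : (0 : Fin (m + 2) → ℂ) ∈ closedBall (0 : Fin (m + 2) → ℂ) R :=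
    mem_closedBall_self hR.le
  have hpos : ∀ n : ℕ, 0 < min R (δ * (n + 1)) := fun n => lt_min hR (by positivity)
  have hind : ∀ n : ℕ, ∃ F : (Fin (m + 2) → ℂ) → ℂ,
      (∀ z ∈ ball (0 : Fin (m + 2) → ℂ) (min R δ), F z = f₀ z) ∧
      ∀ z₁ ∈ ball (0 : Fin (m + 2) → ℂ) (min R (δ * (n + 1))), ∃ g ∈ VV (P z₁) z₁ δ,
        ∀ z ∈ ball z₁ δ ∩ ball 0 (min R (δ * (n + 1))), F z = g z := by
    intro n
    induction n with
    | zero =>
      refine ⟨f₀, fun _ _ => rfl, fun z₁ hz₁ => ?_⟩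
      simp only [Nat.cast_zero, zero_add, mul_one] at hz₁ ⊢
      have hz₁R : z₁ ∈ closedBall (0 : Fin (m + 2) → ℂ) R :=
        ball_subset_closedBall (ball_subset_ball (min_le_left _ _) hz₁)
      have hz₁δ : z₁ ∈ ball (0 : Fin (m + 2) → ℂ) δ := ball_subset_ball (min_le_right _ _) hz₁
      obtain ⟨g', hg', h⟩ := transport (hP 0 h0) (hP z₁ hz₁R) hz₁δ (mem_ball_self hδ) hf₀
      exact ⟨g', hg', fun z hz => h z ⟨ball_subset_ball (min_le_right _ _) hz.2, hz.1⟩⟩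
    | succ n ih =>
      obtain ⟨F, hF0, hF⟩ := ih
      have h1 : min R (δ * ((n : ℝ) + 1)) ≤ min R (δ * ((n + 1 : ℕ) + 1)) := by
        refine min_le_min le_rfl ?_
        push_cast
        nlinarith
      have h2 : min R (δ * ((n + 1 : ℕ) + 1)) ≤ min R (δ * ((n : ℝ) + 1)) + δ := by
        rw [min_add]
        refine min_le_min (by linarith) ?_
        push_cast
        linarith
      obtain ⟨F', hF'0, hF'⟩ := grow hδ hP (hpos n) h1 (min_le_left _ _) h2 hF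
      refine ⟨F', fun z hz => ?_, hF'⟩
      rw [hF'0 z, hF0 z hz]
      refine ball_subset_ball (min_le_min le_rfl ?_) hz
      nlinarith [(Nat.cast_nonneg n : (0 : ℝ) ≤ n)]
  obtain ⟨n, hn⟩ := exists_nat_gt (R / δ)
  obtain ⟨F, hF0, hF⟩ := hind n
  have hmin : min R (δ * (n + 1)) = R := by
    refine min_eq_left ?_
    rw [div_lt_iff₀ hδ] at hn
    nlinarith
  rw [hmin] at hF
  refine ⟨F, ?_, ?_⟩
  · filter_upwards [isOpen_ball.mem_nhds (mem_ball_self (lt_min hR hδ) :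
      (0 : Fin (m + 2) → ℂ) ∈ ball 0 (min R δ))] with z hz
    exact hF0 z hz
  · intro z₁ hz₁
    obtain ⟨g, hg, h⟩ := hF z₁ hz₁
    have hd := ((hP z₁ (ball_subset_closedBall hz₁)).diff_mem hg).differentiableAt
      (isOpen_ball.mem_nhds (mem_ball_self hδ))
    refine DifferentiableAt.differentiableWithinAt ?_
    refine hd.congr_of_eventuallyEq ?_
    filter_upwards [isOpen_ball.mem_nhds (mem_ball_self hδ : z₁ ∈ ball z₁ δ),
      isOpen_ball.mem_nhds hz₁] with t h1 h2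
    exact h t ⟨h1, h2⟩

/-- every germ of the finite-dimensional space at `0` extends to an entire function -/
theorem extend_entire {k : ℕ} {p : (Fin (m + 2) → ℂ) → ℝ} (hp : HypRank k m p)
    (ha : AnalyticOnNhd ℝ p univ) {δ₀ : ℝ} (hδ₀ : 0 < δ₀)
    {P₀ : (Fin (m + 2) → ℂ) → (Fin (m + 2) → ℂ) → ℂ} (hP₀ : LD (tri (tri k)) p 0 δ₀ P₀)
    {f₀ : (Fin (m + 2) → ℂ) → ℂ} (hf₀ : f₀ ∈ VV P₀ 0 δ₀) :
    ∃ F : (Fin (m + 2) → ℂ) → ℂ, Differentiable ℂ F ∧ ∀ᶠ z in 𝓝 0, F z = f₀ z := by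
  have hex : ∀ R : ℕ, ∃ F : (Fin (m + 2) → ℂ) → ℂ, (∀ᶠ z in 𝓝 0, F z = f₀ z) ∧
      DifferentiableOn ℂ F (ball 0 ((R : ℝ) + 1)) := by
    intro R
    obtain ⟨δ, hδ, P, hP⟩ := exists_uniform hp ha ((R : ℝ) + 1)
    have hR : (0 : ℝ) < R + 1 := by positivity
    have hP0 := hP 0 (mem_closedBall_self hR.le)
    obtain ⟨g, hg, hgf⟩ := transport hP₀ hP0 (mem_ball_self hδ₀) (mem_ball_self hδ) hf₀
    obtain ⟨F, hF, hFd⟩ := extend_ball hR hδ hP hg
    refine ⟨F, ?_, hFd⟩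
    filter_upwards [hF, isOpen_ball.mem_nhds (mem_ball_self hδ₀ : (0 : Fin (m + 2) → ℂ) ∈ ball 0 δ₀),
      isOpen_ball.mem_nhds (mem_ball_self hδ : (0 : Fin (m + 2) → ℂ) ∈ ball 0 δ)] with z h1 h2 h3
    rw [h1, hgf z ⟨h2, h3⟩]
  choose F hF hFd using hex
  have hFF : ∀ R R' : ℕ, R ≤ R' → ∀ z ∈ ball (0 : Fin (m + 2) → ℂ) ((R : ℝ) + 1),
      F R z = F R' z := by
    intro R R' hRR z hz
    have hsub : ball (0 : Fin (m + 2) → ℂ) ((R : ℝ) + 1) ⊆ ball 0 ((R' : ℝ) + 1) := by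
      refine ball_subset_ball ?_
      have : (R : ℝ) ≤ R' := by exact_mod_cast hRR
      linarith
    have h := eqOn_of_convex isOpen_ball (convex_ball _ _)
      (f := fun z => F R z - F R' z) (q := 0) ((hFd R).sub ((hFd R').mono hsub))
      (mem_ball_self (by positivity)) ?_ z hz
    · exact sub_eq_zero.1 h
    · filter_upwards [hF R, hF R'] with t h1 h2
      rw [h1, h2, sub_self]
  refine ⟨fun z => F ⌈‖z‖⌉₊ z, ?_, ?_⟩
  · intro z
    set R := ⌈‖z‖⌉₊ + 1 with hR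
    have hzR : z ∈ ball (0 : Fin (m + 2) → ℂ) R := by
      rw [mem_ball_zero_iff, hR]
      have := Nat.le_ceil ‖z‖
      push_cast
      linarith
    have hd : DifferentiableAt ℂ (F R) z := by
      refine (hFd R).differentiableAt (isOpen_ball.mem_nhds ?_)
      exact ball_subset_ball (by linarith) hzR
    refine hd.congr_of_eventuallyEq ?_
    filter_upwards [isOpen_ball.mem_nhds hzR] with t ht
    rw [mem_ball_zero_iff] at ht
    refine hFF _ R (Nat.ceil_le.2 ht.le) t ?_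
    rw [mem_ball_zero_iff]
    have := Nat.le_ceil ‖t‖
    linarith
  · filter_upwards [hF 0, isOpen_ball.mem_nhds (mem_ball_self one_pos :
      (0 : Fin (m + 2) → ℂ) ∈ ball 0 1)] with z h1 h2
    rw [← h1]
    symm
    refine hFF 0 _ (Nat.zero_le _) z ?_
    simpa using h2

end Pool.Agent.Y276.HR
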