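import Mathlib
import Pool.Agent.Y276.HRGlobal

set_option autoImplicit false

namespace Pool.Agent.Y276.HR

open Set Filter Topology Metric

variable {m : ℕ}

/-- Hermitian symmetry of the polarisation -/
theorem LD.symm {N : ℕ} {p : (Fin (m + 2) → ℂ) → ℝ} {z₀ : Fin (m + 2) → ℂ} {δ : ℝ}
    {P : (Fin (m + 2) → ℂ) → (Fin (m + 2) → ℂ) → ℂ} (h : LD N p z₀ δ P)
    {z w : Fin (m + 2) → ℂ} (hz : z ∈ ball z₀ δ) (hw : star w ∈ ball z₀ δ) :
    P z w = star (P (star w) (star z)) := by
  let Q : (Fin (m + 2) → ℂ) × (Fin (m + 2) → ℂ) → ℂ := fun x => P x.2 x.1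
  have hQ : ∀ z w, z ∈ ball z₀ δ → star w ∈ ball z₀ δ → DifferentiableAt ℂ Q (star (z, w)) := by
    intro z w hz hw
    have h1 : star (z, w) = (star z, star w) := rfl
    rw [h1]
    have h2 := h.diff (star w) (star z) hw (by rw [star_star]; exact hz)
    exact DifferentiableAt.comp
      (f := fun t : (Fin (m + 2) → ℂ) × (Fin (m + 2) → ℂ) => (t.2, t.1)) (star z, star w) h2
      (by fun_prop)
  have := trip isOpen_ball (convex_ball z₀ δ)
    (F := fun x => P x.1 x.2 - star (Q (star x)))
    (fun z w hz hw => (h.diff z w hz hw).sub (differentiableAt_star_star (hQ z w hz hw)))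
    (fun z hz => by
      show P z (star z) - star (P (star (star z)) (star z)) = 0
      rw [star_star, h.eq z hz]
      simp) z w hz hw
  exact sub_eq_zero.1 this

/-- the decomposition near the origin, with entire functions -/
theorem near_zero {k : ℕ} {p : (Fin (m + 2) → ℂ) → ℝ} (hp : HypRank k m p)
    (ha : AnalyticOnNhd ℝ p univ) :
    ∃ (A H : Fin (tri (tri k)) → (Fin (m + 2) → ℂ) → ℂ), (∀ j, Differentiable ℂ (A j)) ∧
      (∀ j, Differentiable ℂ (H j)) ∧
      ∀ᶠ z in 𝓝 0, (p z : ℂ) = ∑ j, A j z * star (H j z) := by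
  obtain ⟨δ, hδ, P, hP⟩ := exists_LD hp (ha 0 (mem_univ _))
  obtain ⟨M, hMN, y, x, hy, hx, hdet, hspan⟩ := exists_basis P
    {w : Fin (m + 2) → ℂ | star w ∈ ball 0 δ} (ball 0 δ) hP.rank
  set B := (Matrix.of fun i j => P (x i) (y j))⁻¹ with hB
  have hloc : ∀ z ∈ ball (0 : Fin (m + 2) → ℂ) δ,
      (p z : ℂ) = ∑ j, P z (y j) * star (∑ i, star (B j i) * P z (star (x i))) := by
    intro z hz
    obtain ⟨γ, hγ⟩ := hspan (star z) (by show star (star z) ∈ ball 0 δ; rw [star_star]; exact hz)
    rw [← hP.eq z hz, hγ z hz]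
    refine Finset.sum_congr rfl fun j _ => ?_
    rw [coeff_eq P y x hdet (star z) γ (fun i => hγ (x i) (hx i)) j, mul_comm]
    congr 1
    rw [star_sum]
    refine Finset.sum_congr rfl fun i _ => ?_
    have h1 : star (star z) ∈ ball (0 : Fin (m + 2) → ℂ) δ := by rw [star_star]; exact hz
    have h2 := hP.symm (hx i) h1
    rw [star_star] at h2
    rw [h2, star_mul', star_star]
  have hA : ∀ j, ∃ F : (Fin (m + 2) → ℂ) → ℂ, Differentiable ℂ F ∧
      ∀ᶠ z in 𝓝 0, F z = P z (y j) := fun j =>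
    extend_entire hp ha hδ hP (f₀ := fun z => P z (y j)) (Submodule.subset_span ⟨y j, hy j, rfl⟩)
  have hH : ∀ j, ∃ F : (Fin (m + 2) → ℂ) → ℂ, Differentiable ℂ F ∧
      ∀ᶠ z in 𝓝 0, F z = (∑ i, star (B j i) • fun z => P z (star (x i))) z := fun j =>
    extend_entire hp ha hδ hP (f₀ := ∑ i, star (B j i) • fun z => P z (star (x i)))
      (Submodule.sum_mem _ fun i _ => Submodule.smul_mem _ _
        (Submodule.subset_span ⟨star (x i), by
          show star (star (x i)) ∈ ball 0 δ
          rw [star_star]; exact hx i, rfl⟩))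
  choose A hAd hAe using hA
  choose H hHd hHe using hH
  let e : Fin M → Fin (tri (tri k)) := Fin.castLE hMN
  have he : Function.Injective e := Fin.castLE_injective hMN
  refine ⟨Function.extend e A 0, Function.extend e H 0, ?_, ?_, ?_⟩
  · intro j
    by_cases h : ∃ i, e i = j
    · obtain ⟨i, rfl⟩ := h
      rw [he.extend_apply]
      exact hAd i
    · rw [Function.extend_apply' _ _ _ h]
      exact differentiable_const 0
  · intro j
    by_cases h : ∃ i, e i = j
    · obtain ⟨i, rfl⟩ := h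
      rw [he.extend_apply]
      exact hHd i
    · rw [Function.extend_apply' _ _ _ h]
      exact differentiable_const 0
  · filter_upwards [isOpen_ball.mem_nhds (mem_ball_self hδ : (0 : Fin (m + 2) → ℂ) ∈ ball 0 δ),
      eventually_all.2 hAe, eventually_all.2 hHe] with z h1 h2 h3
    rw [hloc z h1]
    refine Fintype.sum_of_injective e he _ _ ?_ ?_
    · intro j hj
      have h : ¬ ∃ i, e i = j := hj
      rw [Function.extend_apply' _ _ _ h]
      simp
    · intro i
      rw [he.extend_apply, he.extend_apply, h2 i, h3 i, Finset.sum_apply]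
      rfl

/-- an entire function is real analytic along real lines through the origin -/
theorem analytic_line {V : Type*} [NormedAddCommGroup V] [NormedSpace ℂ V] {f : V → ℂ}
    (hf : Differentiable ℂ f) (z : V) : AnalyticOnNhd ℝ (fun t : ℝ => f ((t : ℂ) • z)) univ := by
  intro t _
  have h1 : Differentiable ℂ (fun s : ℂ => f (s • z)) :=
    hf.comp (differentiable_id.smul_const z)
  have h2 : AnalyticAt ℂ (fun s : ℂ => f (s • z)) (t : ℂ) := h1.analyticAt _
  have h3 : AnalyticAt ℝ (fun s : ℂ => f (s • z)) (t : ℂ) := h2.restrictScalars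
  exact h3.comp (Complex.ofRealCLM.analyticAt t)

/-- the local decomposition holds everywhere -/
theorem global_eq {p : (Fin (m + 2) → ℂ) → ℝ} (ha : AnalyticOnNhd ℝ p univ) {N : ℕ}
    {A H : Fin N → (Fin (m + 2) → ℂ) → ℂ} (hA : ∀ j, Differentiable ℂ (A j))
    (hH : ∀ j, Differentiable ℂ (H j))
    (h : ∀ᶠ z in 𝓝 0, (p z : ℂ) = ∑ j, A j z * star (H j z)) (z : Fin (m + 2) → ℂ) :
    (p z : ℂ) = ∑ j, A j z * star (H j z) := by
  have hcont : Continuous (fun t : ℝ => ((t : ℂ) • z)) := by fun_prop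
  have hφ : AnalyticOnNhd ℝ (fun t : ℝ => (p ((t : ℂ) • z) : ℂ)) univ := by
    intro t _
    have h1 : AnalyticAt ℝ (fun t : ℝ => (t : ℂ) • z) t := by
      have : (fun t : ℝ => (t : ℂ) • z) = fun t : ℝ => t • z := by
        funext t; exact Complex.coe_smul t z
      rw [this]
      exact (ContinuousLinearMap.toSpanSingleton ℝ z).analyticAt t
    have h2 : AnalyticAt ℝ (fun t : ℝ => p ((t : ℂ) • z)) t := (ha _ (mem_univ _)).comp h1
    exact (Complex.ofRealCLM.analyticAt _).comp h2
  have hψ : AnalyticOnNhd ℝ (fun t : ℝ => ∑ j, A j ((t : ℂ) • z) * star (H j ((t : ℂ) • z)))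
      univ := by
    intro t _
    refine Finset.analyticAt_fun_sum _ fun j _ => ?_
    refine (analytic_line (hA j) z t (mem_univ _)).mul ?_
    exact ((Complex.conjCLE : ℂ →L[ℝ] ℂ).analyticAt _).comp
      (analytic_line (hH j) z t (mem_univ _))
  have h0 : (fun t : ℝ => (p ((t : ℂ) • z) : ℂ)) =ᶠ[𝓝 0]
      fun t : ℝ => ∑ j, A j ((t : ℂ) • z) * star (H j ((t : ℂ) • z)) := by
    have h1 : Tendsto (fun t : ℝ => ((t : ℂ) • z)) (𝓝 0) (𝓝 0) := by
      have := hcont.tendsto 0
      simpa using this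
    exact h1.eventually h
  have h2 := hφ.eq_of_eventuallyEq hψ h0
  have h3 := congrFun h2 1
  simpa using h3

theorem re_mul_star (a b : ℂ) :
    (a * star b).re = Complex.normSq ((a + b) / 2) - Complex.normSq ((a - b) / 2) := by
  simp only [Complex.normSq_apply, Complex.mul_re, Complex.star_def, Complex.conj_re,
    Complex.conj_im, Complex.add_re, Complex.add_im, Complex.sub_re, Complex.sub_im,
    Complex.div_ofNat_re, Complex.div_ofNat_im]
  ring

theorem main_aux {k : ℕ} {p : (Fin (m + 2) → ℂ) → ℝ} (hp : HypRank k m p)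
    (ha : AnalyticOnNhd ℝ p univ) :
    ∃ (ε : Fin (tri (tri k) + tri (tri k)) → ℝ)
      (f : Fin (tri (tri k) + tri (tri k)) → (Fin (m + 2) → ℂ) → ℂ),
      (∀ j, ε j = 1 ∨ ε j = -1) ∧ (∀ j, Differentiable ℂ (f j)) ∧
      ∀ z, p z = ∑ j, ε j * Complex.normSq (f j z) := by
  obtain ⟨A, H, hA, hH, h⟩ := near_zero hp ha
  refine ⟨Fin.addCases (fun _ => 1) (fun _ => -1),
    Fin.addCases (fun j z => (A j z + H j z) / 2) (fun j z => (A j z - H j z) / 2), ?_, ?_, ?_⟩
  · intro j
    refine Fin.addCases (fun i => ?_) (fun i => ?_) j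
    · left; exact Fin.addCases_left _
    · right; exact Fin.addCases_right _
  · intro j
    refine Fin.addCases (fun i => ?_) (fun i => ?_) j
    · simp only [Fin.addCases_left]
      have h1 : Differentiable ℂ fun z => (A i z + H i z) * (2 : ℂ)⁻¹ :=
        ((hA i).add (hH i)).mul_const _
      simpa only [div_eq_mul_inv] using h1
    · simp only [Fin.addCases_right]
      have h1 : Differentiable ℂ fun z => (A i z - H i z) * (2 : ℂ)⁻¹ :=
        ((hA i).sub (hH i)).mul_const _
      simpa only [div_eq_mul_inv] using h1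
  · intro z
    have h1 := congrArg Complex.re (global_eq ha hA hH h z)
    rw [Complex.ofReal_re, Complex.re_sum] at h1
    rw [h1, Fin.sum_univ_add]
    simp only [Fin.addCases_left, Fin.addCases_right, re_mul_star]
    rw [Finset.sum_sub_distrib]
    simp [sub_eq_add_neg]

end Pool.Agent.Y276.HR
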