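import Mathlib

/-!
# Correlation sequences of bounded mean zero functions

`Rep c`: the real sequence `c` on `ℤ` is `n ↦ ∫ F · F ∘ T ^ n` for a bounded measurable function
`F` of mean zero on some invertible measure preserving probability system.  The class is closed
under sums, products and multiplication by nonnegative constants, and it contains the constant `1`.
-/

set_option autoImplicit false

open MeasureTheory Filter

namespace Pool.Agent.Y276.Nice

/-- `c` is the correlation sequence of a bounded measurable mean zero function. -/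
def Rep (c : ℤ → ℝ) : Prop :=
  ∃ (X : Type) (_ : MeasurableSpace X) (μ : Measure X) (_ : IsProbabilityMeasure μ)
    (T : Equiv.Perm X), Measurable T ∧ Measurable T.symm ∧ MeasurePreserving (⇑T) μ μ ∧
    ∃ F : X → ℝ, Measurable F ∧ (∃ M : ℝ, ∀ x, |F x| ≤ M) ∧ ∫ x, F x ∂μ = 0 ∧
      ∀ n : ℤ, c n = ∫ x, F x * F ((T ^ n) x) ∂μ

lemma zpow_mp {X : Type} [MeasurableSpace X] {μ : Measure X} {T : Equiv.Perm X}
    (h1 : Measurable T) (h2 : Measurable T.symm) (h : MeasurePreserving (⇑T) μ μ) (n : ℤ) :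
    MeasurePreserving (⇑(T ^ n)) μ μ := by
  have hnat : ∀ (S : Equiv.Perm X), MeasurePreserving (⇑S) μ μ →
      ∀ k : ℕ, MeasurePreserving (⇑(S ^ k)) μ μ := by
    intro S hS k
    have := hS.iterate k
    rwa [Equiv.Perm.iterate_eq_pow] at this
  have hinv : MeasurePreserving (⇑T⁻¹) μ μ := by
    let e : X ≃ᵐ X := ⟨T, h1, h2⟩
    exact MeasurePreserving.symm e h
  cases n with
  | ofNat k => simpa using hnat T h k
  | negSucc k =>
    rw [zpow_negSucc, ← inv_pow]
    exact hnat _ hinv (k + 1)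

/-- The product homomorphism on permutations. -/
def prodHom (X Y : Type) : Equiv.Perm X × Equiv.Perm Y →* Equiv.Perm (X × Y) where
  toFun p := Equiv.prodCongr p.1 p.2
  map_one' := by ext <;> rfl
  map_mul' := by intros; ext <;> rfl

lemma prodHom_zpow_apply {X Y : Type} (T : Equiv.Perm X) (S : Equiv.Perm Y) (n : ℤ)
    (p : X × Y) : ((prodHom X Y (T, S)) ^ n) p = ((T ^ n) p.1, (S ^ n) p.2) := by
  rw [← map_zpow]
  rfl

lemma prodHom_measurable {X Y : Type} [MeasurableSpace X] [MeasurableSpace Y]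
    {T : Equiv.Perm X} {S : Equiv.Perm Y} (hT : Measurable T) (hS : Measurable S) :
    Measurable (prodHom X Y (T, S)) := by
  have : (⇑(prodHom X Y (T, S)) : X × Y → X × Y) = fun p => (T p.1, S p.2) := rfl
  rw [this]
  exact (hT.comp measurable_fst).prodMk (hS.comp measurable_snd)

lemma prodHom_measurable_symm {X Y : Type} [MeasurableSpace X] [MeasurableSpace Y]
    {T : Equiv.Perm X} {S : Equiv.Perm Y} (hT : Measurable T.symm) (hS : Measurable S.symm) :
    Measurable (prodHom X Y (T, S)).symm := by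
  have : (⇑(prodHom X Y (T, S)).symm : X × Y → X × Y) = fun p => (T.symm p.1, S.symm p.2) := rfl
  rw [this]
  exact (hT.comp measurable_fst).prodMk (hS.comp measurable_snd)

lemma prodHom_mp {X Y : Type} [MeasurableSpace X] [MeasurableSpace Y]
    {T : Equiv.Perm X} {S : Equiv.Perm Y} {μ : Measure X} {ν : Measure Y}
    [IsProbabilityMeasure μ] [IsProbabilityMeasure ν]
    (hT : MeasurePreserving (⇑T) μ μ) (hS : MeasurePreserving (⇑S) ν ν) :
    MeasurePreserving (⇑(prodHom X Y (T, S))) (μ.prod ν) (μ.prod ν) := by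
  have : (⇑(prodHom X Y (T, S)) : X × Y → X × Y) = Prod.map T S := rfl
  rw [this]
  exact hT.prod hS

lemma integrable_of_bdd {X : Type} [MeasurableSpace X] {μ : Measure X} [IsProbabilityMeasure μ]
    {F : X → ℝ} (hF : Measurable F) {M : ℝ} (hM : ∀ x, |F x| ≤ M) : Integrable F μ :=
  Integrable.of_bound hF.aestronglyMeasurable M (Eventually.of_forall hM)

lemma Rep.one : Rep (fun _ => 1) := by
  classical
  let μ : Measure Bool := (2⁻¹ : ENNReal) • (Measure.dirac true + Measure.dirac false)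
  have hμ : IsProbabilityMeasure μ := ⟨by
    simp only [μ, Measure.smul_apply, Measure.add_apply, measure_univ, smul_eq_mul]
    rw [show (1 : ENNReal) + 1 = 2 by norm_num]
    exact ENNReal.inv_mul_cancel (by norm_num) (by norm_num)⟩
  have hint : ∀ f : Bool → ℝ, ∫ x, f x ∂μ = (f true + f false) / 2 := by
    intro f
    simp only [μ]
    rw [integral_smul_measure, integral_add_measure (by exact Integrable.of_finite)
      (by exact Integrable.of_finite), integral_dirac, integral_dirac]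
    rw [ENNReal.toReal_inv]
    simp
    ring
  refine ⟨Bool, inferInstance, μ, hμ, 1, by exact measurable_id, by exact measurable_id,
    MeasurePreserving.id μ, fun b => if b then 1 else -1, measurable_of_finite _, ⟨1, ?_⟩, ?_, ?_⟩
  · intro b
    cases b <;> simp
  · rw [hint]
    simp
  · intro n
    rw [hint]
    simp

lemma Rep.smul {c : ℤ → ℝ} (hc : Rep c) {a : ℝ} (ha : 0 ≤ a) : Rep (fun n => a * c n) := by
  obtain ⟨X, _, μ, _, T, h1, h2, h3, F, hF, ⟨M, hM⟩, h0, hcF⟩ := hc
  refine ⟨X, _, μ, inferInstance, T, h1, h2, h3, fun x => Real.sqrt a * F x,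
    hF.const_mul _, ⟨Real.sqrt a * M, ?_⟩, ?_, ?_⟩
  · intro x
    rw [abs_mul, abs_of_nonneg (Real.sqrt_nonneg a)]
    exact mul_le_mul_of_nonneg_left (hM x) (Real.sqrt_nonneg a)
  · rw [integral_const_mul, h0, mul_zero]
  · intro n
    show a * c n = ∫ x, (Real.sqrt a * F x) * (Real.sqrt a * F ((T ^ n) x)) ∂μ
    rw [hcF n, ← integral_const_mul]
    apply integral_congr_ae
    refine Eventually.of_forall fun x => ?_
    have := Real.mul_self_sqrt ha
    show a * (F x * F ((T ^ n) x)) = Real.sqrt a * F x * (Real.sqrt a * F ((T ^ n) x))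
    calc a * (F x * F ((T ^ n) x)) = (Real.sqrt a * Real.sqrt a) * (F x * F ((T ^ n) x)) := by
          rw [this]
      _ = _ := by ring

lemma Rep.mul {c d : ℤ → ℝ} (hc : Rep c) (hd : Rep d) : Rep (fun n => c n * d n) := by
  obtain ⟨X, _, μ, _, T, h1, h2, h3, F, hF, ⟨M, hM⟩, h0, hcF⟩ := hc
  obtain ⟨Y, _, ν, _, S, k1, k2, k3, G, hG, ⟨K, hK⟩, g0, hdG⟩ := hd
  refine ⟨X × Y, inferInstance, μ.prod ν, inferInstance, prodHom X Y (T, S),
    prodHom_measurable h1 k1, prodHom_measurable_symm h2 k2, prodHom_mp h3 k3,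
    fun p => F p.1 * G p.2, (hF.comp measurable_fst).mul (hG.comp measurable_snd),
    ⟨M * K, ?_⟩, ?_, ?_⟩
  · intro p
    rw [abs_mul]
    exact mul_le_mul (hM _) (hK _) (abs_nonneg _) ((abs_nonneg _).trans (hM p.1))
  · rw [integral_prod_mul, h0, zero_mul]
  · intro n
    show c n * d n = ∫ p, (F p.1 * G p.2) * (F (((prodHom X Y (T, S)) ^ n) p).1 *
      G (((prodHom X Y (T, S)) ^ n) p).2) ∂(μ.prod ν)
    rw [hcF n, hdG n, ← integral_prod_mul]
    apply integral_congr_ae
    refine Eventually.of_forall fun p => ?_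
    simp only [prodHom_zpow_apply]
    ring

lemma Rep.add {c d : ℤ → ℝ} (hc : Rep c) (hd : Rep d) : Rep (fun n => c n + d n) := by
  obtain ⟨X, _, μ, _, T, h1, h2, h3, F, hF, ⟨M, hM⟩, h0, hcF⟩ := hc
  obtain ⟨Y, _, ν, _, S, k1, k2, k3, G, hG, ⟨K, hK⟩, g0, hdG⟩ := hd
  refine ⟨X × Y, inferInstance, μ.prod ν, inferInstance, prodHom X Y (T, S),
    prodHom_measurable h1 k1, prodHom_measurable_symm h2 k2, prodHom_mp h3 k3,
    fun p => F p.1 + G p.2, (hF.comp measurable_fst).add (hG.comp measurable_snd),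
    ⟨M + K, ?_⟩, ?_, ?_⟩
  · intro p
    exact (abs_add_le _ _).trans (add_le_add (hM _) (hK _))
  · rw [integral_add, integral_fun_fst, integral_fun_snd, h0, g0]
    · simp
    · exact (integrable_of_bdd hF hM).comp_fst ν
    · exact (integrable_of_bdd hG hK).comp_snd μ
  · intro n
    have hTn := zpow_mp h1 h2 h3 n
    have hSn := zpow_mp k1 k2 k3 n
    have hFn : Measurable fun x => F ((T ^ n) x) := hF.comp hTn.measurable
    have hGn : Measurable fun y => G ((S ^ n) y) := hG.comp hSn.measurable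
    have eF : ∫ x, F ((T ^ n) x) ∂μ = 0 := by
      have := MeasureTheory.integral_map (μ := μ) (φ := ⇑(T ^ n)) hTn.measurable.aemeasurable
        (f := F) hF.aestronglyMeasurable
      rw [← this, hTn.map_eq, h0]
    have eG : ∫ y, G ((S ^ n) y) ∂ν = 0 := by
      have := MeasureTheory.integral_map (μ := ν) (φ := ⇑(S ^ n)) hSn.measurable.aemeasurable
        (f := G) hG.aestronglyMeasurable
      rw [← this, hSn.map_eq, g0]
    have i1 : Integrable (fun p : X × Y => F p.1 * F ((T ^ n) p.1)) (μ.prod ν) := by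
      refine integrable_of_bdd (M := M * M) ((hF.comp measurable_fst).mul
        (hFn.comp measurable_fst)) fun p => ?_
      rw [abs_mul]
      exact mul_le_mul (hM _) (hM _) (abs_nonneg _) ((abs_nonneg _).trans (hM p.1))
    have i2 : Integrable (fun p : X × Y => F p.1 * G ((S ^ n) p.2)) (μ.prod ν) := by
      refine integrable_of_bdd (M := M * K) ((hF.comp measurable_fst).mul
        (hGn.comp measurable_snd)) fun p => ?_
      rw [abs_mul]
      exact mul_le_mul (hM _) (hK _) (abs_nonneg _) ((abs_nonneg _).trans (hM p.1))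
    have i3 : Integrable (fun p : X × Y => F ((T ^ n) p.1) * G p.2) (μ.prod ν) := by
      refine integrable_of_bdd (M := M * K) ((hFn.comp measurable_fst).mul
        (hG.comp measurable_snd)) fun p => ?_
      rw [abs_mul]
      exact mul_le_mul (hM _) (hK _) (abs_nonneg _) ((abs_nonneg _).trans (hM p.1))
    have i4 : Integrable (fun p : X × Y => G p.2 * G ((S ^ n) p.2)) (μ.prod ν) := by
      refine integrable_of_bdd (M := K * K) ((hG.comp measurable_snd).mul
        (hGn.comp measurable_snd)) fun p => ?_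
      rw [abs_mul]
      exact mul_le_mul (hK _) (hK _) (abs_nonneg _) ((abs_nonneg _).trans (hK p.2))
    have e : ∀ p : X × Y, (F p.1 + G p.2) * (F (((prodHom X Y (T, S)) ^ n) p).1 +
        G (((prodHom X Y (T, S)) ^ n) p).2) =
        ((F p.1 * F ((T ^ n) p.1) + F p.1 * G ((S ^ n) p.2)) + F ((T ^ n) p.1) * G p.2) +
          G p.2 * G ((S ^ n) p.2) := by
      intro p
      simp only [prodHom_zpow_apply]
      ring
    simp_rw [e]
    have s1 : ∫ p : X × Y, (((F p.1 * F ((T ^ n) p.1) + F p.1 * G ((S ^ n) p.2)) +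
        F ((T ^ n) p.1) * G p.2) + G p.2 * G ((S ^ n) p.2)) ∂(μ.prod ν) =
        ∫ p : X × Y, ((F p.1 * F ((T ^ n) p.1) + F p.1 * G ((S ^ n) p.2)) +
        F ((T ^ n) p.1) * G p.2) ∂(μ.prod ν) +
        ∫ p : X × Y, G p.2 * G ((S ^ n) p.2) ∂(μ.prod ν) :=
      integral_add ((i1.add i2).add i3) i4
    have s2 : ∫ p : X × Y, ((F p.1 * F ((T ^ n) p.1) + F p.1 * G ((S ^ n) p.2)) +
        F ((T ^ n) p.1) * G p.2) ∂(μ.prod ν) =
        ∫ p : X × Y, (F p.1 * F ((T ^ n) p.1) + F p.1 * G ((S ^ n) p.2)) ∂(μ.prod ν) +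
        ∫ p : X × Y, F ((T ^ n) p.1) * G p.2 ∂(μ.prod ν) :=
      integral_add (i1.add i2) i3
    have s3 : ∫ p : X × Y, (F p.1 * F ((T ^ n) p.1) + F p.1 * G ((S ^ n) p.2)) ∂(μ.prod ν) =
        ∫ p : X × Y, F p.1 * F ((T ^ n) p.1) ∂(μ.prod ν) +
        ∫ p : X × Y, F p.1 * G ((S ^ n) p.2) ∂(μ.prod ν) :=
      integral_add i1 i2
    rw [s1, s2, s3]
    have j1 : ∫ p : X × Y, F p.1 * F ((T ^ n) p.1) ∂(μ.prod ν) = c n := by
      rw [hcF n]
      have := integral_fun_fst (μ := μ) (ν := ν) (fun x => F x * F ((T ^ n) x))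
      rw [this]
      simp
    have j4 : ∫ p : X × Y, G p.2 * G ((S ^ n) p.2) ∂(μ.prod ν) = d n := by
      rw [hdG n]
      have := integral_fun_snd (μ := μ) (ν := ν) (fun x => G x * G ((S ^ n) x))
      rw [this]
      simp
    have j2 : ∫ p : X × Y, F p.1 * G ((S ^ n) p.2) ∂(μ.prod ν) = 0 := by
      rw [integral_prod_mul F (fun y => G ((S ^ n) y)), h0, zero_mul]
    have j3 : ∫ p : X × Y, F ((T ^ n) p.1) * G p.2 ∂(μ.prod ν) = 0 := by
      rw [integral_prod_mul (fun x => F ((T ^ n) x)) G, g0, mul_zero]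
    rw [j1, j2, j3, j4]
    ring

lemma Rep.bdd {c : ℤ → ℝ} (hc : Rep c) : ∃ K : ℝ, 0 < K ∧ ∀ n, |c n| ≤ K := by
  obtain ⟨X, _, μ, _, T, h1, h2, h3, F, hF, ⟨M, hM⟩, h0, hcF⟩ := hc
  refine ⟨M * M + 1, by nlinarith [mul_self_nonneg M], fun n => ?_⟩
  rw [hcF n]
  have : ‖∫ x, F x * F ((T ^ n) x) ∂μ‖ ≤ M * M * μ.real Set.univ := by
    apply norm_integral_le_of_norm_le_const
    refine Eventually.of_forall fun x => ?_
    rw [Real.norm_eq_abs, abs_mul]
    exact mul_le_mul (hM _) (hM _) (abs_nonneg _) ((abs_nonneg _).trans (hM x))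
  simp only [probReal_univ, mul_one, Real.norm_eq_abs] at this
  linarith

lemma Rep.one_add_pow {c : ℤ → ℝ} (hc : Rep c) (N : ℕ) : Rep (fun n => (1 + c n) ^ N) := by
  induction N with
  | zero => simpa using Rep.one
  | succ k ih =>
    have := ih.mul (Rep.one.add hc)
    simpa [pow_succ] using this

end Pool.Agent.Y276.Nice
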