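import Pool.Agent.Y276.NiceRep

/-!
# From correlation sequences to sets

For every sequence `c` with `Rep c` there are an invertible measure preserving probability system,
a measurable set `A` of measure `1/2` and `δ > 0` with `μ (A ∩ T ^ {-n} A) = 1/4 + δ * c n` for all
`n ≠ 0`.
-/

set_option autoImplicit false

open MeasureTheory Filter

namespace Pool.Agent.Y276.Nice

/-- The representative in `(0, 1]` of a point of the circle. -/
noncomputable def rep (y : UnitAddCircle) : ℝ := (AddCircle.measurableEquivIoc 1 0 y : ℝ)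

lemma rep_measurable : Measurable rep :=
  measurable_subtype_coe.comp (AddCircle.measurableEquivIoc 1 0).measurable

lemma rep_coe {x : ℝ} (h : x ∈ Set.Ioc (0 : ℝ) (0 + 1)) : rep (x : UnitAddCircle) = x := by
  have := AddCircle.equivIoc_coe_eq (p := (1 : ℝ)) (a := 0) h
  show ((AddCircle.equivIoc 1 0 (x : UnitAddCircle) : Set.Ioc (0 : ℝ) (0 + 1)) : ℝ) = x
  rw [this]

lemma vol_rep_le {t : ℝ} (h1 : t ≤ 1) :
    volume {y : UnitAddCircle | rep y ≤ t} = ENNReal.ofReal t := by
  have hm : MeasurableSet {y : UnitAddCircle | rep y ≤ t} :=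
    measurableSet_le rep_measurable measurable_const
  have hp := UnitAddCircle.measurePreserving_mk 0
  rw [← hp.measure_preimage hm.nullMeasurableSet, Measure.restrict_apply (hp.measurable hm)]
  have : (fun x : ℝ => (x : UnitAddCircle)) ⁻¹' {y : UnitAddCircle | rep y ≤ t} ∩
      Set.Ioc (0 : ℝ) (0 + 1) = Set.Ioc 0 t := by
    ext x
    simp only [Set.mem_inter_iff, Set.mem_preimage, Set.mem_ofPred_eq]
    constructor
    · rintro ⟨h, hx⟩
      rw [rep_coe hx] at h
      exact ⟨hx.1, h⟩
    · rintro ⟨h, hx⟩
      have hx' : x ∈ Set.Ioc (0 : ℝ) (0 + 1) := ⟨h, by linarith⟩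
      exact ⟨by rw [rep_coe hx']; exact hx, hx'⟩
  rw [this, Real.volume_Ioc, sub_zero]

instance : IsProbabilityMeasure (volume : Measure UnitAddCircle) :=
  ⟨UnitAddCircle.measure_univ⟩

lemma indep {n : ℤ} (hn : n ≠ 0) {s t : ℝ} (hs1 : s ≤ 1) (ht1 : t ≤ 1) :
    (volume.prod volume) {p : UnitAddCircle × UnitAddCircle | rep p.2 ≤ s ∧
      rep (p.2 + n • p.1) ≤ t} = ENNReal.ofReal s * ENNReal.ofReal t := by
  have h1 : MeasurePreserving (fun x : UnitAddCircle => n • x) volume volume :=
    Measure.measurePreserving_zsmul volume hn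
  have h2 := h1.prod (MeasurePreserving.id (volume : Measure UnitAddCircle))
  have h3 := (measurePreserving_prod_add_swap (volume : Measure UnitAddCircle)
    (volume : Measure UnitAddCircle)).comp h2
  have hm : MeasurableSet ({y : UnitAddCircle | rep y ≤ s} ×ˢ {y : UnitAddCircle | rep y ≤ t}) :=
    (measurableSet_le rep_measurable measurable_const).prod
      (measurableSet_le rep_measurable measurable_const)
  have h4 := h3.measure_preimage hm.nullMeasurableSet
  rw [Measure.prod_prod, vol_rep_le hs1, vol_rep_le ht1] at h4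
  rw [← h4]
  rfl

/-- The shear of the two dimensional torus. -/
def shear : Equiv.Perm (UnitAddCircle × UnitAddCircle) where
  toFun p := (p.1, p.2 + p.1)
  invFun p := (p.1, p.2 - p.1)
  left_inv p := by simp
  right_inv p := by simp

lemma shear_apply (p : UnitAddCircle × UnitAddCircle) : shear p = (p.1, p.2 + p.1) := rfl

lemma shear_inv_apply (p : UnitAddCircle × UnitAddCircle) : shear⁻¹ p = (p.1, p.2 - p.1) := rfl

lemma shear_zpow (n : ℤ) (p : UnitAddCircle × UnitAddCircle) :
    (shear ^ n) p = (p.1, p.2 + n • p.1) := by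
  induction n using Int.induction_on generalizing p with
  | zero => simp
  | succ k ih =>
    rw [zpow_add_one, Equiv.Perm.mul_apply, ih, shear_apply]
    simp only [Prod.mk.injEq, true_and]
    rw [add_zsmul, one_zsmul]
    abel
  | pred k ih =>
    rw [zpow_sub_one, Equiv.Perm.mul_apply, ih, shear_inv_apply]
    simp only [Prod.mk.injEq, true_and]
    rw [sub_zsmul, one_zsmul]
    abel

lemma shear_measurable : Measurable shear := by
  have : (⇑shear : UnitAddCircle × UnitAddCircle → UnitAddCircle × UnitAddCircle) =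
    fun p => (p.1, p.2 + p.1) := rfl
  rw [this]
  exact measurable_fst.prodMk (measurable_snd.add measurable_fst)

lemma shear_measurable_symm : Measurable shear.symm := by
  have : (⇑shear.symm : UnitAddCircle × UnitAddCircle → UnitAddCircle × UnitAddCircle) =
    fun p => (p.1, p.2 - p.1) := rfl
  rw [this]
  exact measurable_fst.prodMk (measurable_snd.sub measurable_fst)

lemma shear_mp : MeasurePreserving (⇑shear) (volume.prod volume) (volume.prod volume) :=
  measurePreserving_prod_add_right (volume : Measure UnitAddCircle)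
    (volume : Measure UnitAddCircle)

lemma Rep.exists_set {c : ℤ → ℝ} (hc : Rep c) :
    ∃ (X : Type) (_ : MeasurableSpace X) (μ : Measure X) (_ : IsProbabilityMeasure μ)
      (T : Equiv.Perm X), Measurable T ∧ Measurable T.symm ∧ MeasurePreserving (⇑T) μ μ ∧
      ∃ A : Set X, MeasurableSet A ∧ μ A = ENNReal.ofReal (1 / 2) ∧ ∃ δ : ℝ, 0 < δ ∧
        ∀ n : ℤ, n ≠ 0 → μ (A ∩ (⇑(T ^ n)) ⁻¹' A) = ENNReal.ofReal (1 / 4 + δ * c n) := by
  obtain ⟨X, _, μ, _, T, h1, h2, h3, F, hF, ⟨M, hM⟩, h0, hcF⟩ := hc
  have hM' : 0 < |M| + 1 := by positivity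
  have hFM : ∀ x, |F x| ≤ |M| + 1 := fun x => (hM x).trans ((le_abs_self M).trans (by linarith))
  set δ : ℝ := 1 / (2 * (|M| + 1)) with hδ
  have hδ0 : 0 < δ := by positivity
  have hδF : ∀ x, |δ * F x| ≤ 1 / 2 := by
    intro x
    rw [abs_mul, abs_of_pos hδ0, hδ]
    have := hFM x
    rw [div_mul_eq_mul_div, one_mul, div_le_div_iff₀ (by positivity) (by norm_num)]
    linarith
  let g : X → ℝ := fun x => 1 / 2 + δ * F x
  have hg : Measurable g := (hF.const_mul δ).const_add _
  have hg0 : ∀ x, 0 ≤ g x := fun x => by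
    have := (abs_le.mp (hδF x)).1
    simp only [g]; linarith
  have hg1 : ∀ x, g x ≤ 1 := fun x => by
    have := (abs_le.mp (hδF x)).2
    simp only [g]; linarith
  have hgb : ∀ x, |g x| ≤ 1 := fun x => abs_le.mpr ⟨by linarith [hg0 x], hg1 x⟩
  have hFi : Integrable F μ := integrable_of_bdd hF hM
  have hgint : ∫ x, g x ∂μ = 1 / 2 := by
    simp only [g]
    rw [integral_add (integrable_const _) (hFi.const_mul δ), integral_const_mul, h0]
    simp
  let S : Equiv.Perm (X × (UnitAddCircle × UnitAddCircle)) := prodHom _ _ (T, shear)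
  let A : Set (X × (UnitAddCircle × UnitAddCircle)) := {p | rep p.2.2 ≤ g p.1}
  have hrep : Measurable fun p : X × (UnitAddCircle × UnitAddCircle) => rep p.2.2 :=
    rep_measurable.comp (measurable_snd.comp measurable_snd)
  have hA : MeasurableSet A := measurableSet_le hrep (hg.comp measurable_fst)
  have hSm : MeasurePreserving (⇑S) (μ.prod (volume.prod volume)) (μ.prod (volume.prod volume)) :=
    prodHom_mp h3 shear_mp
  have hS1 : Measurable S := prodHom_measurable h1 shear_measurable
  have hS2 : Measurable S.symm := prodHom_measurable_symm h2 shear_measurable_symm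
  refine ⟨X × (UnitAddCircle × UnitAddCircle), inferInstance, μ.prod (volume.prod volume),
    inferInstance, S, hS1, hS2, hSm, A, hA, ?_, δ ^ 2, by positivity, ?_⟩
  · rw [Measure.prod_apply hA]
    have : ∀ x, (volume.prod volume) (Prod.mk x ⁻¹' A) = ENNReal.ofReal (g x) := by
      intro x
      have e : Prod.mk x ⁻¹' A = Set.univ ×ˢ {y : UnitAddCircle | rep y ≤ g x} := by
        ext p
        simp [A]
      rw [e, Measure.prod_prod, vol_rep_le (hg1 x), measure_univ, one_mul]
    simp_rw [this]
    rw [← ofReal_integral_eq_lintegral_ofReal (integrable_of_bdd hg hgb)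
      (Eventually.of_forall hg0), hgint]
  · intro n hn
    have hTn := zpow_mp h1 h2 h3 n
    have hSn := zpow_mp hS1 hS2 hSm n
    rw [Measure.prod_apply (hA.inter (hSn.measurable hA))]
    have : ∀ x, (volume.prod volume) (Prod.mk x ⁻¹' (A ∩ (⇑(S ^ n)) ⁻¹' A)) =
        ENNReal.ofReal (g x * g ((T ^ n) x)) := by
      intro x
      have e : Prod.mk x ⁻¹' (A ∩ (⇑(S ^ n)) ⁻¹' A) =
          {p : UnitAddCircle × UnitAddCircle | rep p.2 ≤ g x ∧
            rep (p.2 + n • p.1) ≤ g ((T ^ n) x)} := by
        ext p
        simp only [A, S, Set.mem_preimage, Set.mem_inter_iff, Set.mem_ofPred_eq,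
          prodHom_zpow_apply, shear_zpow]
      rw [e, indep hn (hg1 x) (hg1 _), ENNReal.ofReal_mul (hg0 x)]
    simp_rw [this]
    have hgn : Measurable fun x => g ((T ^ n) x) := hg.comp hTn.measurable
    rw [← ofReal_integral_eq_lintegral_ofReal]
    · congr 1
      have hFn : Measurable fun x => F ((T ^ n) x) := hF.comp hTn.measurable
      have eF : ∫ x, F ((T ^ n) x) ∂μ = 0 := by
        have := MeasureTheory.integral_map (μ := μ) (φ := ⇑(T ^ n)) hTn.measurable.aemeasurable
          (f := F) hF.aestronglyMeasurable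
        rw [← this, hTn.map_eq, h0]
      have i1 : Integrable (fun x => F x * F ((T ^ n) x)) μ := by
        refine integrable_of_bdd (M := M * M) (hF.mul hFn) fun p => ?_
        rw [abs_mul]
        exact mul_le_mul (hM _) (hM _) (abs_nonneg _) ((abs_nonneg _).trans (hM p))
      have i2 : Integrable (fun x => F ((T ^ n) x)) μ := integrable_of_bdd hFn (fun x => hM _)
      have e : ∀ x, g x * g ((T ^ n) x) = (1 / 4 + (δ / 2) * F x) +
          ((δ / 2) * F ((T ^ n) x) + δ ^ 2 * (F x * F ((T ^ n) x))) := by
        intro x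
        simp only [g]
        ring
      simp_rw [e]
      rw [integral_add, integral_add, integral_add, integral_const_mul, integral_const_mul,
        integral_const_mul, h0, eF, ← hcF n]
      · simp
      · exact i2.const_mul _
      · exact i1.const_mul _
      · exact integrable_const _
      · exact hFi.const_mul _
      · exact (integrable_const _).add (hFi.const_mul _)
      · exact (i2.const_mul _).add (i1.const_mul _)
    · refine integrable_of_bdd (M := 1 * 1) (hg.mul hgn) fun x => ?_
      rw [abs_mul]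
      exact mul_le_mul (hgb _) (hgb _) (abs_nonneg _) zero_le_one
    · exact Eventually.of_forall fun x => mul_nonneg (hg0 _) (hg0 _)

end Pool.Agent.Y276.Nice
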